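import Pool.Agent.Helper32_Poly.Comp
import Pool.Agent.Helper32_Poly.Morphism

/-!
# A language of polynomial-time word generators

`PGen m F` says that the function `F`, which maps `m` words over the alphabet `C` to a word, is
built from constants by concatenation, loops over the letters of a variable (the body may use the
letter, and the prefix of the word before this letter as a new variable), local definitions, case
distinction on the last letter of a variable, and the difference of lengths of two variables.
`pgen_computable`: such functions (of one variable) are computable in polynomial time.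
-/

namespace Pool.Agent.Helper53_CookLevin

open Pool.Agent.Helper32_Poly Turing Function Computability

/-- `scan f p l`: for the letters `c` of `l` one after the other, the word `f q c` where `q` is
`p` followed by the part of `l` before `c`; everything concatenated. -/
def scan {C : Type} (f : List C → C → List C) : List C → List C → List C
  | _, [] => []
  | p, c :: l => f p c ++ scan f (p ++ [c]) l

theorem scan_append {C : Type} (f : List C → C → List C) : ∀ (p l₁ l₂ : List C),
    scan f p (l₁ ++ l₂) = scan f p l₁ ++ scan f (p ++ l₁) l₂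
  | p, [], l₂ => by simp [scan]
  | p, c :: l, l₂ => by
    simp [scan, scan_append f (p ++ [c]) l l₂]

/-- Functions from `m` words to a word which are given by polynomial-time generators. -/
inductive PGen {C : Type} : (m : ℕ) → ((Fin m → List C) → List C) → Prop
  | const {m : ℕ} (w : List C) : PGen m (fun _ => w)
  | append {m : ℕ} {F G : (Fin m → List C) → List C} :
      PGen m F → PGen m G → PGen m (fun ρ => F ρ ++ G ρ)
  | loop {m : ℕ} (j : Fin m) (F : C → (Fin (m + 1) → List C) → List C)
      (h : ∀ c, PGen (m + 1) (F c)) :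
      PGen m (fun ρ => scan (fun p c => F c (Matrix.vecCons p ρ)) [] (ρ j))
  | letw {m : ℕ} {F : (Fin m → List C) → List C} {G : (Fin (m + 1) → List C) → List C} :
      PGen m F → PGen (m + 1) G → PGen m (fun ρ => G (Matrix.vecCons (F ρ) ρ))
  | rename {m m' : ℕ} {F : (Fin m → List C) → List C} (f : Fin m → Fin m') :
      PGen m F → PGen m' (fun ρ => F (ρ ∘ f))
  | caseLast {m : ℕ} (j : Fin m) (F : Option C → (Fin m → List C) → List C)
      (h : ∀ c, PGen m (F c)) : PGen m (fun ρ => F (ρ j).getLast? ρ)
  | drop {m : ℕ} (i j : Fin m) : PGen m (fun ρ => (ρ i).drop (ρ j).length)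

/-- total length of the variables -/
def size {C : Type} {m : ℕ} (ρ : Fin m → List C) : ℕ := ∑ i, (ρ i).length

theorem size_cons {C : Type} {m : ℕ} (w : List C) (ρ : Fin m → List C) :
    size (Matrix.vecCons w ρ) = w.length + size ρ := by
  unfold size
  rw [Fin.sum_univ_succ]
  simp

theorem length_le_size {C : Type} {m : ℕ} (ρ : Fin m → List C) (j : Fin m) :
    (ρ j).length ≤ size ρ := by
  unfold size
  exact Finset.single_le_sum (f := fun i => (ρ i).length) (fun _ _ => Nat.zero_le _)
    (Finset.mem_univ j)

theorem size_rename {C : Type} {m m' : ℕ} (ρ : Fin m' → List C) (f : Fin m → Fin m') :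
    size (ρ ∘ f) ≤ m * size ρ := by
  unfold size
  calc ∑ i, ((ρ ∘ f) i).length ≤ ∑ _i : Fin m, size ρ :=
        Finset.sum_le_sum (fun i _ => length_le_size ρ (f i))
    _ = m * size ρ := by simp

/-- programs over stacks indexed by `ℕ`, all with the alphabet `C`, and a register for a letter -/
abbrev Pr (C : Type) : Type := Prog (fun _ : ℕ => C) (Option C)

/-- length bound and compilability -/
def Good {C : Type} {m : ℕ} (F : (Fin m → List C) → List C) : Prop :=
  (∃ b : Polynomial ℕ, ∀ ρ, (F ρ).length ≤ b.eval (size ρ)) ∧
  ∃ q : Polynomial ℕ, ∀ (vm : Fin m → ℕ) (o s : ℕ), (∀ i, vm i < s) → o < s →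
    (∀ i, vm i ≠ o) →
    ∃ p : Pr C, ∀ (ρ : Fin m → List C) (S : ℕ → List C) (r : Option C),
      (∀ i, S (vm i) = (ρ i).reverse) → (∀ j, s ≤ j → S j = []) →
      ∃ r' t, t ≤ q.eval (size ρ) ∧
        Prog.Run p r S r' (update S o ((F ρ).reverse ++ S o)) t

section

variable {C : Type}

theorem good_const {m : ℕ} (w : List C) : Good (fun _ : Fin m → List C => w) := by
  refine ⟨⟨(w.length : Polynomial ℕ), fun ρ => by simp⟩,
    ((w.length + 1 : ℕ) : Polynomial ℕ), fun vm o s _ _ _ => ⟨Prog.pushWord o w, ?_⟩⟩
  intro ρ S r _ _
  exact ⟨r, w.length + 1, by simp, Prog.pushWord_run (Γ := fun _ : ℕ => C) o r w S⟩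

theorem good_append {m : ℕ} {F G : (Fin m → List C) → List C} (hF : Good F) (hG : Good G) :
    Good (fun ρ => F ρ ++ G ρ) := by
  obtain ⟨⟨b1, hb1⟩, q1, h1⟩ := hF
  obtain ⟨⟨b2, hb2⟩, q2, h2⟩ := hG
  refine ⟨⟨b1 + b2, fun ρ => by
    simp only [List.length_append, Polynomial.eval_add]
    exact Nat.add_le_add (hb1 ρ) (hb2 ρ)⟩, q1 + q2, fun vm o s hv ho hvo => ?_⟩
  obtain ⟨p1, hp1⟩ := h1 vm o s hv ho hvo
  obtain ⟨p2, hp2⟩ := h2 vm o s hv ho hvo
  refine ⟨.seq p1 p2, fun ρ S r hS hs => ?_⟩
  obtain ⟨r', t, ht, hr⟩ := hp1 ρ S r hS hs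
  obtain ⟨r'', t', ht', hr'⟩ := hp2 ρ (update S o ((F ρ).reverse ++ S o)) r'
    (fun i => by rw [update_of_ne (hvo i)]; exact hS i)
    (fun j hj => by rw [update_of_ne (by omega)]; exact hs j hj)
  refine ⟨r'', t + t', ?_, ?_⟩
  · simp only [Polynomial.eval_add]
    exact Nat.add_le_add ht ht'
  · have h := Prog.Run.seq hr hr'
    rw [update_idem, update_self] at h
    simpa using h

theorem good_rename {m m' : ℕ} {F : (Fin m → List C) → List C} (f : Fin m → Fin m')
    (hF : Good F) : Good (fun ρ : Fin m' → List C => F (ρ ∘ f)) := by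
  obtain ⟨⟨b, hb⟩, q, h⟩ := hF
  refine ⟨⟨b.comp ((m : Polynomial ℕ) * Polynomial.X), fun ρ => ?_⟩,
    q.comp ((m : Polynomial ℕ) * Polynomial.X), fun vm o s hv ho hvo => ?_⟩
  · refine (hb _).trans ?_
    simp only [Polynomial.eval_comp, Polynomial.eval_mul, Polynomial.eval_natCast,
      Polynomial.eval_X, Nat.cast_id]
    exact poly_eval_mono _ (size_rename ρ f)
  · obtain ⟨p, hp⟩ := h (vm ∘ f) o s (fun i => hv _) ho (fun i => hvo _)
    refine ⟨p, fun ρ S r hS hs => ?_⟩
    obtain ⟨r', t, ht, hr⟩ := hp (ρ ∘ f) S r (fun i => hS _) hs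
    refine ⟨r', t, ht.trans ?_, hr⟩
    simp only [Polynomial.eval_comp, Polynomial.eval_mul, Polynomial.eval_natCast,
      Polynomial.eval_X, Nat.cast_id]
    exact poly_eval_mono _ (size_rename ρ f)

/-- clear stack `s` -/
def clearP (s : ℕ) : Pr C := Prog.forEach s id (fun _ o => o) Prog.skip

theorem clearP_run (s : ℕ) (S : ℕ → List C) (r : Option C) :
    ∃ t, t ≤ (S s).length * 3 + 2 ∧ Prog.Run (clearP s) r S none (update S s []) t := by
  obtain ⟨v', S', t, ht, hr, hI, hS'⟩ := Prog.forEach_run (Γ := fun _ : ℕ => C) s id
    (fun (_ : Option C) o => o) (fun _ _ => rfl) Prog.skip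
    (fun l _ S' => S' = update S s l) 1
    (by
      rintro a l v S' rfl -
      refine ⟨_, _, 1, le_rfl, Prog.skip_run _ _, ?_, by simp⟩
      rw [update_idem])
    (S s) r S rfl (by rw [update_eq_self])
  subst hI
  exact ⟨t, by omega, hr⟩

variable [Inhabited C]

/-- push the letter in the register on stack `k` -/
def pushR (k : ℕ) : Pr C := .push k (fun r => r.getD default)

/-- move stack `a` to stack `b` -/
def moveP (a b : ℕ) : Pr C := .forEach a id (fun _ o => o) (pushR b)

theorem moveP_run (a b : ℕ) (hab : a ≠ b) (S : ℕ → List C) (r : Option C) :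
    ∃ t, t ≤ (S a).length * 3 + 2 ∧
      Prog.Run (moveP a b) r S none (update (update S a []) b ((S a).reverse ++ S b)) t := by
  obtain ⟨v', S', t, ht, hr, hI, -⟩ := Prog.forEach_run (Γ := fun _ : ℕ => C) a id
    (fun (_ : Option C) o => o) (fun _ _ => rfl) (pushR b)
    (fun l _ S' => ∃ d, d ++ l = S a ∧ S' = update (update S a l) b (d.reverse ++ S b)) 1
    (by
      rintro c l v S' ⟨d, hd, rfl⟩ -
      refine ⟨_, _, 1, le_rfl, Prog.Run.push _ _ _ _, ⟨d ++ [c], by simpa using hd, ?_⟩, ?_⟩
      · funext k
        simp only [Option.getD_some, List.reverse_append, List.reverse_cons, List.reverse_nil,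
          List.nil_append, List.singleton_append, Function.update_apply]
        split_ifs <;> first | rfl | omega
      · simp only [Function.update_apply]
        split_ifs <;> first | rfl | omega)
    (S a) r S rfl ⟨[], rfl, by simp⟩
  obtain ⟨d, hd, rfl⟩ := hI
  rw [List.append_nil] at hd
  subst hd
  exact ⟨t, by omega, hr⟩

/-- copy the word in stack `a` (stored in reverse) to stack `s+1`, in the right order -/
def copyP (a s : ℕ) : Pr C :=
  .seq (.forEach a id (fun _ o => o) (.seq (pushR (s + 1)) (pushR (s + 2))))
    (.forEach (s + 2) id (fun _ o => o) (pushR a))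

theorem copyP_run (a s : ℕ) (ha : a < s) (S : ℕ → List C) (r : Option C) (w : List C)
    (hw : S a = w.reverse) (h1 : S (s + 1) = []) (h2 : S (s + 2) = []) :
    ∃ t, t ≤ w.length * 7 + 4 ∧ Prog.Run (copyP a s) r S none (update S (s + 1) w) t := by
  obtain ⟨v1, S1, t1, ht1, hr1, hI1, -⟩ := Prog.forEach_run (Γ := fun _ : ℕ => C) a id
    (fun (_ : Option C) o => o) (fun _ _ => rfl) (.seq (pushR (s + 1)) (pushR (s + 2)))
    (fun l _ S' => ∃ d, d ++ l = w.reverse ∧
      S' = update (update (update S a l) (s + 1) d.reverse) (s + 2) d.reverse) 2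
    (by
      rintro c l v S' ⟨d, hd, rfl⟩ -
      refine ⟨some c, _, 1 + 1, le_rfl, Prog.Run.seq (Prog.Run.push _ _ _ _)
        (Prog.Run.push _ _ _ _), ⟨d ++ [c], by simpa using hd, ?_⟩, ?_⟩
      · funext k
        simp only [Option.getD_some, List.reverse_append, List.reverse_cons, List.reverse_nil,
          List.nil_append, List.singleton_append, Function.update_apply]
        split_ifs <;> first | rfl | omega
      · simp only [Function.update_apply]
        split_ifs <;> first | rfl | omega)
    w.reverse r S hw ⟨[], rfl, by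
      funext k
      simp only [Function.update_apply]
      split_ifs with e1 e2 e3
      · subst e1; simp [h2]
      · subst e2; simp [h1]
      · subst e3; simp [hw]
      · rfl⟩
  obtain ⟨d, hd, rfl⟩ := hI1
  rw [List.append_nil] at hd
  subst hd
  rw [List.reverse_reverse] at hr1
  obtain ⟨v2, S2, t2, ht2, hr2, hI2, -⟩ := Prog.forEach_run (Γ := fun _ : ℕ => C) (s + 2) id
    (fun (_ : Option C) o => o) (fun _ _ => rfl) (pushR a)
    (fun l _ S' => ∃ d, d ++ l = w ∧
      S' = update (update (update S a d.reverse) (s + 1) w) (s + 2) l) 1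
    (by
      rintro c l v S' ⟨d, hd, rfl⟩ -
      refine ⟨some c, _, 1, le_rfl, (Prog.Run.push _ _ _ _), ⟨d ++ [c], by simpa using hd, ?_⟩,
        ?_⟩
      · funext k
        simp only [Option.getD_some, List.reverse_append, List.reverse_cons, List.reverse_nil,
          List.nil_append, List.singleton_append, Function.update_apply]
        split_ifs <;> first | rfl | omega
      · simp only [Function.update_apply]
        split_ifs <;> first | rfl | omega)
    w none _ (by simp) ⟨[], rfl, rfl⟩
  obtain ⟨d, hd, rfl⟩ := hI2
  rw [List.append_nil] at hd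
  subst hd
  refine ⟨t1 + t2, ?_, ?_⟩
  · simp only [List.length_reverse] at ht1
    omega
  · have h := Prog.Run.seq hr1 hr2
    have e : update (update (update S a d.reverse) (s + 1) d) (s + 2) [] =
        update S (s + 1) d := by
      funext k
      simp only [Function.update_apply]
      split_ifs with e1 e2 e3
      · omega
      · subst e1; simp [h2]
      · rfl
      · rename_i e3; subst e3; simp [hw]
      · rfl
    rw [e] at h
    exact h

/-- program for a loop over the variable in stack `a` -/
noncomputable def loopP [Fintype C] (a s : ℕ) (P : C → Pr C) : Pr C :=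
  .seq (copyP a s) (.seq
    (.forEach (s + 1) id (fun _ o => o)
      (Prog.switch id (fun c => .seq (P c) (.push s (fun _ => c))) (Finset.univ : Finset C).toList))
    (clearP s))

theorem loopP_run [Fintype C] (a s o : ℕ) (ha : a < s) (ho : o < s) (hao : a ≠ o) (P : C → Pr C)
    (f : List C → C → List C) (S : ℕ → List C) (r : Option C) (w : List C) (T : ℕ)
    (hw : S a = w.reverse) (hs : ∀ j, s ≤ j → S j = [])
    (hP : ∀ (c : C) (d l : List C), d ++ c :: l = w → ∀ (S' : ℕ → List C) (r : Option C),
      (∀ j, j < s → j ≠ o → S' j = S j) → S' s = d.reverse → (∀ j, s + 2 ≤ j → S' j = []) →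
      ∃ r' t, t ≤ T ∧ Prog.Run (P c) r S' r' (update S' o ((f d c).reverse ++ S' o)) t) :
    ∃ t, t ≤ w.length * (T + Fintype.card C + 13) + 8 ∧
      Prog.Run (loopP a s P) r S none (update S o ((scan f [] w).reverse ++ S o)) t := by
  obtain ⟨t1, ht1, hr1⟩ := copyP_run a s ha S r w hw (hs _ (by omega)) (hs _ (by omega))
  obtain ⟨v2, S2, t2, ht2, hr2, hI2, -⟩ := Prog.forEach_run (Γ := fun _ : ℕ => C) (s + 1) id
    (fun (_ : Option C) o => o) (fun _ _ => rfl)
    (Prog.switch id (fun c => .seq (P c) (.push s (fun _ => c))) (Finset.univ : Finset C).toList)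
    (fun l _ S' => ∃ d, d ++ l = w ∧
      S' = update (update (update S (s + 1) l) s d.reverse) o ((scan f [] d).reverse ++ S o))
    (T + 1 + Fintype.card C)
    (by
      rintro c l v S' ⟨d, hd, rfl⟩ -
      obtain ⟨r', t, ht, hr⟩ := hP c d l hd
        (update (update (update (update S (s + 1) (c :: l)) s d.reverse) o
          ((scan f [] d).reverse ++ S o)) (s + 1) l) (some c)
        (by
          intro j hj hjo
          simp only [Function.update_apply]
          split_ifs <;> first | rfl | omega)
        (by
          simp only [Function.update_apply]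
          split_ifs <;> first | rfl | omega)
        (by
          intro j hj
          simp only [Function.update_apply]
          split_ifs <;> first | exact hs j (by omega) | omega)
      have hr3 := Prog.Run.seq hr (Prog.Run.push s (fun _ => c) _ _)
      obtain ⟨t', ht', hr'⟩ := Prog.switch_run (Γ := fun _ : ℕ => C) (σ := Option C) id
        (fun c => .seq (P c) (.push s (fun _ => c))) (a := c) (v := some c) rfl hr3
        (Finset.univ : Finset C).toList (by simp)
      refine ⟨_, _, t', ?_, hr', ⟨d ++ [c], by simpa using hd, ?_⟩, ?_⟩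
      · rw [Finset.length_toList, Finset.card_univ] at ht'
        omega
      · funext k
        simp only [scan_append, scan, List.nil_append, List.append_nil,
          List.reverse_append, List.reverse_cons, List.reverse_nil,
          List.singleton_append, Function.update_apply]
        split_ifs <;> first | rfl | omega | simp
      · simp only [Function.update_apply]
        split_ifs <;> first | rfl | omega)
    w none (update S (s + 1) w) (by simp) ⟨[], rfl, by
      funext k
      simp only [Function.update_apply, scan, List.reverse_nil, List.nil_append]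
      split_ifs
      all_goals first
        | rfl
        | omega
        | (subst_vars; first | rfl | exact hs _ (by omega) | exact (hs _ (by omega)).symm)⟩
  obtain ⟨d, hd, rfl⟩ := hI2
  rw [List.append_nil] at hd
  subst hd
  obtain ⟨t3, ht3, hr3⟩ := clearP_run (C := C) s (update (update (update S (s + 1) []) s d.reverse)
    o ((scan f [] d).reverse ++ S o)) none
  have e : update (update (update (update S (s + 1) []) s d.reverse) o
      ((scan f [] d).reverse ++ S o)) s [] = update S o ((scan f [] d).reverse ++ S o) := by
    funext k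
    simp only [Function.update_apply]
    split_ifs
    all_goals first
      | rfl
      | omega
      | (subst_vars; first | rfl | exact hs _ (by omega) | exact (hs _ (by omega)).symm)
  rw [e] at hr3
  have e2 : (update (update (update S (s + 1) []) s d.reverse)
    o ((scan f [] d).reverse ++ S o) s).length = d.length := by
    simp only [Function.update_apply]
    split_ifs <;> first | omega | simp
  rw [e2] at ht3
  refine ⟨t1 + (t2 + t3), ?_, Prog.Run.seq hr1 (Prog.Run.seq hr2 hr3)⟩
  have h1 : d.length * (T + Fintype.card C + 13) =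
    d.length * 7 + d.length * (T + 1 + Fintype.card C + 2) + d.length * 3 := by ring
  omega

theorem good_loop [Fintype C] {m : ℕ} (j : Fin m) (F : C → (Fin (m + 1) → List C) → List C)
    (h : ∀ c, Good (F c)) :
    Good (fun ρ : Fin m → List C => scan (fun p c => F c (Matrix.vecCons p ρ)) [] (ρ j)) := by
  have h1 := fun c => (h c).1
  have h2 := fun c => (h c).2
  choose b hb using h1
  choose q hq using h2
  clear h
  have hsz : ∀ (ρ : Fin m → List C) (d l : List C) (c : C), d ++ c :: l = ρ j →
      size (Matrix.vecCons d ρ) ≤ 2 * size ρ := by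
    intro ρ d l c hd
    rw [size_cons]
    have h1 := length_le_size ρ j
    rw [← hd, List.length_append] at h1
    omega
  refine ⟨⟨Polynomial.X * (∑ c, b c).comp (2 * Polynomial.X), fun ρ => ?_⟩,
    Polynomial.X * ((∑ c, q c).comp (2 * Polynomial.X) + (Fintype.card C : Polynomial ℕ) + 13)
      + 8, fun vm o s hv ho hvo => ?_⟩
  · have key : ∀ (l d : List C), d ++ l = ρ j →
        (scan (fun p c => F c (Matrix.vecCons p ρ)) d l).length ≤
          l.length * (∑ c, b c).eval (2 * size ρ) := by
      intro l
      induction l with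
      | nil => intro d _; simp [scan]
      | cons c l ih =>
        intro d hd
        simp only [scan, List.length_append, List.length_cons]
        have h1 := ih (d ++ [c]) (by simpa using hd)
        have h2 := (hb c (Matrix.vecCons d ρ)).trans (poly_eval_mono _ (hsz ρ d l c hd))
        have h3 : (b c).eval (2 * size ρ) ≤ (∑ c, b c).eval (2 * size ρ) := by
          rw [Polynomial.eval_finsetSum]
          exact Finset.single_le_sum (f := fun c => (b c).eval (2 * size ρ))
            (fun _ _ => Nat.zero_le _) (Finset.mem_univ c)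
        rw [Nat.add_mul, Nat.one_mul]
        omega
    refine (key (ρ j) [] rfl).trans ?_
    simp only [Polynomial.eval_mul, Polynomial.eval_X, Polynomial.eval_comp,
      Polynomial.eval_ofNat]
    exact Nat.mul_le_mul_right _ (length_le_size ρ j)
  · have hc : ∀ c, ∃ p : Pr C, ∀ (ρ : Fin (m + 1) → List C) (S : ℕ → List C) (r : Option C),
        (∀ i, S ((Matrix.vecCons s vm : Fin (m + 1) → ℕ) i) = (ρ i).reverse) →
        (∀ j, s + 2 ≤ j → S j = []) →
        ∃ r' t, t ≤ (q c).eval (size ρ) ∧
          Prog.Run p r S r' (update S o ((F c ρ).reverse ++ S o)) t := by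
      intro c
      refine hq c _ o (s + 2) ?_ (by omega) ?_
      · intro i
        refine Fin.cases ?_ (fun i => ?_) i
        · simp
        · have := hv i; simp; omega
      · intro i
        refine Fin.cases ?_ (fun i => ?_) i
        · simp; omega
        · simpa using hvo i
    choose P hP using hc
    refine ⟨loopP (vm j) s P, fun ρ S r hS hs => ?_⟩
    obtain ⟨t, ht, hr⟩ := loopP_run (vm j) s o (hv j) ho (hvo j) P
      (fun p c => F c (Matrix.vecCons p ρ)) S r (ρ j) ((∑ c, q c).eval (2 * size ρ)) (hS j) hs
      (by
        intro c d l hd S' r hS' hs1 hs2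
        obtain ⟨r', t, ht, hr⟩ := hP c (Matrix.vecCons d ρ) S' r
          (by
            intro i
            refine Fin.cases ?_ (fun i => ?_) i
            · simpa using hs1
            · simp only [Matrix.cons_val_succ]
              rw [hS' _ (hv i) (hvo i)]
              exact hS i) hs2
        refine ⟨r', t, ht.trans ((poly_eval_mono _ (hsz ρ d l c hd)).trans ?_), hr⟩
        rw [Polynomial.eval_finsetSum]
        exact Finset.single_le_sum (f := fun c => (q c).eval (2 * size ρ))
          (fun _ _ => Nat.zero_le _) (Finset.mem_univ c))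
    refine ⟨none, t, ht.trans ?_, hr⟩
    simp only [Polynomial.eval_add, Polynomial.eval_mul, Polynomial.eval_X,
      Polynomial.eval_comp, Polynomial.eval_ofNat, Polynomial.eval_natCast, Nat.cast_id]
    have := Nat.mul_le_mul_right ((∑ c, q c).eval (2 * size ρ) + Fintype.card C + 13)
      (length_le_size ρ j)
    omega

theorem good_letw {m : ℕ} {F : (Fin m → List C) → List C} {G : (Fin (m + 1) → List C) → List C}
    (hF : Good F) (hG : Good G) : Good (fun ρ => G (Matrix.vecCons (F ρ) ρ)) := by
  obtain ⟨⟨b1, hb1⟩, q1, h1⟩ := hF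
  obtain ⟨⟨b2, hb2⟩, q2, h2⟩ := hG
  have hsz : ∀ (ρ : Fin m → List C), size (Matrix.vecCons (F ρ) ρ) ≤
      (b1 + Polynomial.X).eval (size ρ) := by
    intro ρ
    rw [size_cons]
    simp only [Polynomial.eval_add, Polynomial.eval_X]
    have := hb1 ρ
    omega
  refine ⟨⟨b2.comp (b1 + Polynomial.X), fun ρ => ?_⟩,
    q1 + q2.comp (b1 + Polynomial.X) + 3 * b1 + 2, fun vm o s hv ho hvo => ?_⟩
  · rw [Polynomial.eval_comp]
    exact (hb2 _).trans (poly_eval_mono _ (hsz ρ))
  · obtain ⟨p1, hp1⟩ := h1 vm s (s + 1) (fun i => by have := hv i; omega) (by omega)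
      (fun i => by have := hv i; omega)
    obtain ⟨p2, hp2⟩ := h2 (Matrix.vecCons s vm) o (s + 1)
      (by
        intro i
        refine Fin.cases ?_ (fun i => ?_) i
        · simp
        · have := hv i; simp; omega) (by omega)
      (by
        intro i
        refine Fin.cases ?_ (fun i => ?_) i
        · simp; omega
        · simpa using hvo i)
    refine ⟨.seq p1 (.seq p2 (clearP s)), fun ρ S r hS hs => ?_⟩
    obtain ⟨r', t, ht, hr⟩ := hp1 ρ S r hS (fun j hj => hs j (by omega))
    rw [hs s le_rfl, List.append_nil] at hr
    obtain ⟨r'', t', ht', hr'⟩ := hp2 (Matrix.vecCons (F ρ) ρ) (update S s (F ρ).reverse) r'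
      (by
        intro i
        refine Fin.cases ?_ (fun i => ?_) i
        · simp
        · simp only [Matrix.cons_val_succ]
          rw [update_of_ne (by have := hv i; omega)]
          exact hS i)
      (fun j hj => by rw [update_of_ne (by omega)]; exact hs j (by omega))
    rw [update_of_ne (show o ≠ s by omega)] at hr'
    obtain ⟨t3, ht3, hr3⟩ := clearP_run (C := C) s (update (update S s (F ρ).reverse) o
      ((G (Matrix.vecCons (F ρ) ρ)).reverse ++ S o)) r''
    have e : update (update (update S s (F ρ).reverse) o
      ((G (Matrix.vecCons (F ρ) ρ)).reverse ++ S o)) s [] =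
        update S o ((G (Matrix.vecCons (F ρ) ρ)).reverse ++ S o) := by
      funext k
      simp only [Function.update_apply]
      split_ifs
      all_goals first
        | rfl
        | omega
        | (subst_vars; first | rfl | exact hs _ (by omega) | exact (hs _ (by omega)).symm)
    rw [e] at hr3
    have e2 : (update (update S s (F ρ).reverse) o
      ((G (Matrix.vecCons (F ρ) ρ)).reverse ++ S o) s).length = (F ρ).length := by
      rw [update_of_ne (by omega), update_self, List.length_reverse]
    rw [e2] at ht3
    refine ⟨none, t + (t' + t3), ?_, Prog.Run.seq hr (Prog.Run.seq hr' hr3)⟩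
    simp only [Polynomial.eval_add, Polynomial.eval_mul, Polynomial.eval_comp,
      Polynomial.eval_ofNat]
    have a1 := ht'.trans (poly_eval_mono q2 (hsz ρ))
    have a2 := hb1 ρ
    simp only [Polynomial.eval_add] at a1
    omega

theorem good_caseLast [Fintype C] {m : ℕ} (j : Fin m)
    (F : Option C → (Fin m → List C) → List C) (h : ∀ c, Good (F c)) :
    Good (fun ρ : Fin m → List C => F (ρ j).getLast? ρ) := by
  have h1 := fun c => (h c).1
  have h2 := fun c => (h c).2
  choose b hb using h1
  choose q hq using h2
  clear h
  refine ⟨⟨∑ c, b c, fun ρ => ?_⟩,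
    (∑ c, q c) + ((3 + Fintype.card (Option C) : ℕ) : Polynomial ℕ), fun vm o s hv ho hvo => ?_⟩
  · refine (hb _ ρ).trans ?_
    rw [Polynomial.eval_finsetSum]
    exact Finset.single_le_sum (f := fun c => (b c).eval (size ρ))
      (fun _ _ => Nat.zero_le _) (Finset.mem_univ _)
  · choose P hP using fun c => hq c vm o s hv ho hvo
    refine ⟨.seq (.pop (vm j) (fun _ o => o))
      (Prog.switch (fun r : Option C => some r) (fun c : Option C =>
        match c with
        | none => P none
        | some c => .seq (.push (vm j) (fun _ => c)) (P (some c)))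
        (Finset.univ : Finset (Option C)).toList), fun ρ S r hS hs => ?_⟩
    have h0 := Prog.Run.pop (Γ := fun _ : ℕ => C) (vm j) (fun (_ : Option C) o => o) r S
    have e1 : (S (vm j)).head? = (ρ j).getLast? := by
      rw [hS, List.head?_reverse]
    rw [e1] at h0
    have hlt : ∀ c, (q c).eval (size ρ) ≤ (∑ c, q c).eval (size ρ) := by
      intro c
      rw [Polynomial.eval_finsetSum]
      exact Finset.single_le_sum (f := fun c => (q c).eval (size ρ))
        (fun _ _ => Nat.zero_le _) (Finset.mem_univ c)
    have hcase : ∃ r' t, t ≤ (∑ c, q c).eval (size ρ) + 1 ∧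
        Prog.Run ((fun c : Option C =>
          match c with
          | none => P none
          | some c => .seq (.push (vm j) (fun _ => c)) (P (some c))) (ρ j).getLast?)
          (ρ j).getLast? (update S (vm j) (S (vm j)).tail) r'
          (update S o ((F (ρ j).getLast? ρ).reverse ++ S o)) t := by
      rcases hl : (ρ j).getLast? with _ | c
      · have e : ρ j = [] := List.getLast?_eq_none_iff.1 hl
        have e2 : update S (vm j) (S (vm j)).tail = S := by
          have : S (vm j) = [] := by rw [hS, e]; rfl
          rw [this, List.tail_nil, ← this, update_eq_self]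
        rw [e2]
        obtain ⟨r', t, ht, hr⟩ := hP none ρ S none hS hs
        exact ⟨r', t, by have := hlt none; omega, hr⟩
      · obtain ⟨l, hl'⟩ := List.getLast?_eq_some_iff.1 hl
        have e : S (vm j) = c :: l.reverse := by rw [hS, hl']; simp
        obtain ⟨r', t, ht, hr⟩ := hP (some c) ρ S (some c) hS hs
        have h3 := Prog.Run.push (Γ := fun _ : ℕ => C) (vm j) (fun _ : Option C => c) (some c)
          (update S (vm j) (S (vm j)).tail)
        have e2 : update (update S (vm j) (S (vm j)).tail) (vm j)
            (c :: update S (vm j) (S (vm j)).tail (vm j)) = S := by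
          rw [update_idem, update_self, e, List.tail_cons, ← e, update_eq_self]
        rw [e2] at h3
        exact ⟨r', 1 + t, by have := hlt (some c); omega, Prog.Run.seq h3 hr⟩
    obtain ⟨r', t, ht, hr⟩ := hcase
    obtain ⟨t', ht', hr'⟩ := Prog.switch_run (Γ := fun _ : ℕ => C) (σ := Option C)
      (fun r : Option C => some r) (fun c : Option C =>
        match c with
        | none => P none
        | some c => .seq (.push (vm j) (fun _ => c)) (P (some c)))
      (a := (ρ j).getLast?) (v := (ρ j).getLast?) rfl hr
      (Finset.univ : Finset (Option C)).toList (by simp)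
    refine ⟨r', 1 + t', ?_, Prog.Run.seq h0 hr'⟩
    rw [Finset.length_toList, Finset.card_univ] at ht'
    simp only [Polynomial.eval_add, Polynomial.eval_natCast, Nat.cast_id]
    omega

theorem good_drop {m : ℕ} (i j : Fin m) :
    Good (fun ρ : Fin m → List C => (ρ i).drop (ρ j).length) := by
  refine ⟨⟨Polynomial.X, fun ρ => ?_⟩, 20 * Polynomial.X + 20, fun vm o s hv ho hvo => ?_⟩
  · simp only [List.length_drop, Polynomial.eval_X]
    have := length_le_size ρ i
    omega
  · refine ⟨.seq (copyP (vm i) s) (.seq (copyP (vm j) (s + 1))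
      (.seq (.forEach (s + 2) id (fun _ o => o) (.pop (s + 1) (fun _ o => o)))
        (moveP (s + 1) o))), fun ρ S r hS hs => ?_⟩
    obtain ⟨t1, ht1, hr1⟩ := copyP_run (vm i) s (hv i) S r (ρ i) (hS i) (hs _ (by omega))
      (hs _ (by omega))
    obtain ⟨t2, ht2, hr2⟩ := copyP_run (vm j) (s + 1) (by have := hv j; omega)
      (update S (s + 1) (ρ i)) none (ρ j)
      (by rw [update_of_ne (by have := hv j; omega)]; exact hS j)
      (by rw [update_of_ne (by omega)]; exact hs _ (by omega))
      (by rw [update_of_ne (by omega)]; exact hs _ (by omega))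
    obtain ⟨v3, S3, t3, ht3, hr3, hI3, -⟩ := Prog.forEach_run (Γ := fun _ : ℕ => C) (s + 2) id
      (fun (_ : Option C) o => o) (fun _ _ => rfl) (.pop (s + 1) (fun _ o => o))
      (fun l _ S' => ∃ d, d ++ l = ρ j ∧
        S' = update (update S (s + 1) ((ρ i).drop d.length)) (s + 2) l) 1
      (by
        rintro c l v S' ⟨d, hd, rfl⟩ -
        refine ⟨_, _, 1, le_rfl, Prog.Run.pop _ _ _ _, ⟨d ++ [c], by simpa using hd, ?_⟩, ?_⟩
        · funext k
          simp only [Function.update_apply, List.length_append, List.length_singleton]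
          split_ifs <;> first | rfl | omega | simp
        · simp only [Function.update_apply]
          split_ifs <;> first | rfl | omega)
      (ρ j) none (update (update S (s + 1) (ρ i)) (s + 1 + 1) (ρ j)) (by simp)
      ⟨[], rfl, by simp⟩
    obtain ⟨d, hd, rfl⟩ := hI3
    rw [List.append_nil] at hd
    subst hd
    obtain ⟨t4, ht4, hr4⟩ := moveP_run (C := C) (s + 1) o (by omega)
      (update (update S (s + 1) ((ρ i).drop (ρ j).length)) (s + 2) []) none
    refine ⟨none, t1 + (t2 + (t3 + t4)), ?_, ?_⟩
    rotate_left
    · have e5 : update (update (update (update S (s + 1) ((ρ i).drop (ρ j).length)) (s + 2) [])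
          (s + 1) []) o ((update (update S (s + 1) ((ρ i).drop (ρ j).length)) (s + 2) []
            (s + 1)).reverse ++ update (update S (s + 1) ((ρ i).drop (ρ j).length)) (s + 2) [] o)
          = update S o (((ρ i).drop (ρ j).length).reverse ++ S o) := by
        funext k
        simp only [Function.update_apply]
        split_ifs
        all_goals first
          | rfl
          | omega
          | (subst_vars; first | rfl | exact hs _ (by omega) | exact (hs _ (by omega)).symm)
      rw [e5] at hr4
      exact Prog.Run.seq hr1 (Prog.Run.seq hr2 (Prog.Run.seq hr3 hr4))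
    · have e4 : (update (update S (s + 1) ((ρ i).drop (ρ j).length)) (s + 2) [] (s + 1)).length =
          (ρ i).length - (ρ j).length := by
        rw [update_of_ne (by omega), update_self, List.length_drop]
      rw [e4] at ht4
      have a1 := length_le_size ρ i
      have a2 := length_le_size ρ j
      simp only [Polynomial.eval_add, Polynomial.eval_mul, Polynomial.eval_X,
        Polynomial.eval_ofNat]
      omega

theorem PGen.good [Fintype C] {m : ℕ} {F : (Fin m → List C) → List C} (h : PGen m F) :
    Good F := by
  induction h with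
  | const w => exact good_const w
  | append _ _ h1 h2 => exact good_append h1 h2
  | loop j F _ h => exact good_loop j F h
  | letw _ _ h1 h2 => exact good_letw h1 h2
  | rename f _ h => exact good_rename f h
  | caseLast j F _ h => exact good_caseLast j F h
  | drop i j => exact good_drop i j

end

/-! ### From stacks indexed by `ℕ` to finitely many stacks -/

section Restrict

variable {C σ : Type}

/-- all stacks used by the program have an index below `N` -/
def Uses (N : ℕ) : Prog (fun _ : ℕ => C) σ → Prop
  | .push k _ => k < N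
  | .pop k _ => k < N
  | .load _ => True
  | .seq p q => Uses N p ∧ Uses N q
  | .ite _ p q => Uses N p ∧ Uses N q
  | .loop _ p => Uses N p

theorem Uses.mono {N N' : ℕ} (h : N ≤ N') : ∀ (p : Prog (fun _ : ℕ => C) σ),
    Uses N p → Uses N' p
  | .push k _, hp => lt_of_lt_of_le (show k < N from hp) h
  | .pop k _, hp => lt_of_lt_of_le (show k < N from hp) h
  | .load _, _ => trivial
  | .seq p q, hp => ⟨Uses.mono h p hp.1, Uses.mono h q hp.2⟩
  | .ite _ p q, hp => ⟨Uses.mono h p hp.1, Uses.mono h q hp.2⟩
  | .loop _ p, hp => Uses.mono h p hp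

theorem exists_uses : ∀ (p : Prog (fun _ : ℕ => C) σ), ∃ N, Uses N p
  | .push k _ => ⟨k + 1, Nat.lt_succ_self k⟩
  | .pop k _ => ⟨k + 1, Nat.lt_succ_self k⟩
  | .load _ => ⟨0, trivial⟩
  | .seq p q => by
    obtain ⟨N, hN⟩ := exists_uses p
    obtain ⟨N', hN'⟩ := exists_uses q
    exact ⟨max N N', Uses.mono (le_max_left _ _) p hN, Uses.mono (le_max_right _ _) q hN'⟩
  | .ite _ p q => by
    obtain ⟨N, hN⟩ := exists_uses p
    obtain ⟨N', hN'⟩ := exists_uses q
    exact ⟨max N N', Uses.mono (le_max_left _ _) p hN, Uses.mono (le_max_right _ _) q hN'⟩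
  | .loop _ p => exists_uses p

/-- the program on finitely many stacks -/
def restrict (N : ℕ) : Prog (fun _ : ℕ => C) σ → Prog (fun _ : Fin N => C) σ
  | .push k f => if h : k < N then .push ⟨k, h⟩ f else .load id
  | .pop k f => if h : k < N then .pop ⟨k, h⟩ f else .load id
  | .load f => .load f
  | .seq p q => .seq (restrict N p) (restrict N q)
  | .ite c p q => .ite c (restrict N p) (restrict N q)
  | .loop c p => .loop c (restrict N p)

theorem update_val (N : ℕ) (S : ℕ → List C) (k : ℕ) (h : k < N) (l : List C) :
    (fun i : Fin N => update S k l i.val) = update (fun i : Fin N => S i.val) ⟨k, h⟩ l := by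
  funext i
  by_cases hi : i = ⟨k, h⟩
  · subst hi; simp
  · have : i.val ≠ k := fun e => hi (Fin.ext e)
    simp [hi, this]

theorem restrict_run (N : ℕ) {p : Prog (fun _ : ℕ => C) σ} {v : σ} {S : ℕ → List C} {v' : σ}
    {S' : ℕ → List C} {t : ℕ} (h : Prog.Run p v S v' S' t) (hu : Uses N p) :
    Prog.Run (restrict N p) v (fun i => S i.val) v' (fun i => S' i.val) t := by
  induction h with
  | push k f v S =>
    have hk : k < N := hu
    have := Prog.Run.push (Γ := fun _ : Fin N => C) ⟨k, hk⟩ f v (fun i => S i.val)
    rw [update_val N S k hk]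
    simpa [restrict, hk] using this
  | pop k f v S =>
    have hk : k < N := hu
    have := Prog.Run.pop (Γ := fun _ : Fin N => C) ⟨k, hk⟩ f v (fun i => S i.val)
    rw [update_val N S k hk]
    simpa [restrict, hk] using this
  | load f v S => exact Prog.Run.load f v _
  | seq _ _ ih1 ih2 => exact Prog.Run.seq (ih1 hu.1) (ih2 hu.2)
  | ite_true hc _ ih => exact Prog.Run.ite_true hc (ih hu.1)
  | ite_false hc _ ih => exact Prog.Run.ite_false hc (ih hu.2)
  | loop_false S hc => exact Prog.Run.loop_false _ hc
  | loop_true hc _ _ ih1 ih2 => exact Prog.Run.loop_true hc (ih1 hu) (ih2 hu)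

end Restrict

section Final

variable {C : Type} [Inhabited C]

/-- Functions given by generators are computable in polynomial time. -/
theorem pgen_computable [Fintype C] (F : (Fin 1 → List C) → List C) (h : PGen 1 F) :
    Nonempty (TM2ComputableInPolyTime (id : List C → List C) (id : List C → List C)
      (fun w => F ![w])) := by
  obtain ⟨⟨b, hb⟩, q, hq⟩ := h.good
  obtain ⟨p, hp⟩ := hq (fun _ => 1) 2 3 (by simp) (by omega) (by simp)
  let P : Pr C := .seq (moveP 0 1) (.seq p (.seq (clearP 1) (moveP 2 0)))
  obtain ⟨N, hN⟩ := exists_uses P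
  have hN1 : Uses (N + 3) P := Uses.mono (by omega) P hN
  refine ⟨Prog.computable id id _ none (0 : Fin (N + 3)) 0 (restrict (N + 3) P) (Equiv.refl C)
    (Equiv.refl C) (q + 3 * b + 6 * Polynomial.X + 6) ?_⟩
  intro w
  obtain ⟨t1, ht1, hr1⟩ := moveP_run 0 1 (by omega) (update (fun _ => []) 0 w) (none : Option C)
  have e1 : update (update (update (fun _ : ℕ => ([] : List C)) 0 w) 0 []) 1
      ((update (fun _ => []) 0 w 0).reverse ++ update (fun _ => []) 0 w 1) =
      update (fun _ => []) 1 w.reverse := by
    funext k
    rcases k with _ | _ | k <;> simp [Function.update_apply]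
  rw [e1] at hr1
  obtain ⟨r2, t2, ht2, hr2⟩ := hp ![w] (update (fun _ => []) 1 w.reverse) none
    (by intro i; fin_cases i; simp)
    (by intro j hj; rw [update_of_ne (by omega)])
  obtain ⟨t3, ht3, hr3⟩ := clearP_run (C := C) 1 (update (update (fun _ => []) 1 w.reverse) 2
    ((F ![w]).reverse ++ update (fun _ => []) 1 w.reverse 2)) r2
  have e3 : update (update (update (fun _ : ℕ => ([] : List C)) 1 w.reverse) 2
    ((F ![w]).reverse ++ update (fun _ => []) 1 w.reverse 2)) 1 [] =
      update (fun _ => []) 2 (F ![w]).reverse := by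
    funext k
    rcases k with _ | _ | _ | k <;> simp [Function.update_apply]
  rw [e3] at hr3
  obtain ⟨t4, ht4, hr4⟩ := moveP_run 2 0 (by omega) (update (fun _ => []) 2 (F ![w]).reverse)
    (none : Option C)
  have e4 : update (update (update (fun _ : ℕ => ([] : List C)) 2 (F ![w]).reverse) 2 []) 0
      ((update (fun _ => []) 2 (F ![w]).reverse 2).reverse ++
        update (fun _ => []) 2 (F ![w]).reverse 0) = update (fun _ => []) 0 (F ![w]) := by
    funext k
    rcases k with _ | _ | _ | k <;> simp [Function.update_apply]
  rw [e4] at hr4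
  have hR : Prog.Run P none (update (fun _ => []) 0 w) none (update (fun _ => []) 0 (F ![w]))
      (t1 + (t2 + (t3 + t4))) := Prog.Run.seq hr1 (Prog.Run.seq hr2 (Prog.Run.seq hr3 hr4))
  have hR' := restrict_run (N + 3) hR hN1
  rw [update_val (N + 3) _ 0 (by omega), update_val (N + 3) _ 0 (by omega)] at hR'
  refine ⟨t1 + (t2 + (t3 + t4)), ?_, ?_⟩
  rotate_left
  · have e5 : (id w).map (Equiv.refl C).symm = w := by simp
    have e6 : (id (F ![w])).map (Equiv.refl C).symm = F ![w] := by simp
    rw [e5, e6]
    exact hR'
  · have s1 : size ![w] = w.length := by simp [size]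
    have s2 := hb ![w]
    rw [s1] at s2 ht2
    simp only [update_self, List.length_reverse] at ht1 ht4
    rw [update_of_ne (by omega), update_self, List.length_reverse] at ht3
    simp only [Polynomial.eval_add, Polynomial.eval_mul, Polynomial.eval_X,
      Polynomial.eval_ofNat, id_eq]
    omega

end Final

end Pool.Agent.Helper53_CookLevin
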