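import Pool.Agent.Helper53_CookLevin.Num

/-!
# CNF formulas, and generators for families of clauses
-/

namespace Pool.Agent.Helper53_CookLevin

/-- letters used to write CNF formulas down -/
inductive CNFLetter
  | clause | pos | neg | tick
  deriving DecidableEq

instance : Fintype CNFLetter :=
  ⟨{.clause, .pos, .neg, .tick}, by intro x; cases x <;> decide⟩

instance : Inhabited CNFLetter := ⟨.tick⟩

/-- A CNF formula: a list of clauses, each a list of literals `(variable, sign)`. -/
abbrev CNF := List (List (ℕ × Bool))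

/-- Encoding of a CNF formula: every clause is preceded by the letter `clause`; a literal is its
sign followed by the number of its variable in unary. -/
def encodeCNF (F : CNF) : List CNFLetter :=
  F.flatMap (fun C => .clause :: C.flatMap
    (fun l => (if l.2 then .pos else .neg) :: List.replicate l.1 .tick))

/-- encoding of a literal -/
def encLit (l : ℕ × Bool) : List CNFLetter :=
  (if l.2 then .pos else .neg) :: List.replicate l.1 .tick

theorem encodeCNF_nil : encodeCNF [] = [] := rfl

theorem encodeCNF_cons (C : List (ℕ × Bool)) (F : CNF) :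
    encodeCNF (C :: F) = .clause :: (C.flatMap encLit ++ encodeCNF F) := rfl

theorem encodeCNF_append (F G : CNF) : encodeCNF (F ++ G) = encodeCNF F ++ encodeCNF G := by
  simp [encodeCNF]

theorem encodeCNF_flatMap {α : Type} (l : List α) (F : α → CNF) :
    encodeCNF (l.flatMap F) = l.flatMap (fun a => encodeCNF (F a)) := by
  induction l with
  | nil => rfl
  | cons a l ih => simp only [List.flatMap_cons, encodeCNF_append, ih]

/-- a step of the parser, which reads the word from right to left -/
def parse : CNFLetter → ℕ × List (ℕ × Bool) × CNF → ℕ × List (ℕ × Bool) × CNF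
  | .tick, (k, C, F) => (k + 1, C, F)
  | .pos, (k, C, F) => (0, (k, true) :: C, F)
  | .neg, (k, C, F) => (0, (k, false) :: C, F)
  | .clause, (_, C, F) => (0, [], C :: F)

theorem parse_ticks (C : List (ℕ × Bool)) (F : CNF) : ∀ (n k : ℕ),
    (List.replicate n CNFLetter.tick).foldr parse (k, C, F) = (k + n, C, F)
  | 0, k => rfl
  | n + 1, k => by
    rw [List.replicate_succ, List.foldr_cons, parse_ticks C F n k]
    rfl

theorem parse_lits (F : CNF) : ∀ (L C : List (ℕ × Bool)),
    (L.flatMap encLit).foldr parse (0, C, F) = (0, L ++ C, F)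
  | [], C => rfl
  | (n, b) :: L, C => by
    rw [List.flatMap_cons, List.foldr_append, parse_lits F L C]
    unfold encLit
    rw [List.foldr_cons, parse_ticks]
    cases b <;> simp [parse]

theorem parse_cnf : ∀ (F : CNF), (encodeCNF F).foldr parse (0, [], []) = (0, [], F)
  | [] => rfl
  | C :: F => by
    rw [encodeCNF_cons, List.foldr_cons, List.foldr_append, parse_cnf F, parse_lits]
    simp [parse]

theorem encodeCNF_injective : Function.Injective encodeCNF := by
  intro F G h
  have h1 := parse_cnf F
  rw [h, parse_cnf G] at h1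
  exact (congrArg (fun x => x.2.2) h1).symm

/-- a valuation satisfies a formula -/
def Sat (v : ℕ → Bool) (F : CNF) : Prop := ∀ C ∈ F, ∃ l ∈ C, v l.1 = l.2

theorem sat_append (v : ℕ → Bool) (F G : CNF) : Sat v (F ++ G) ↔ Sat v F ∧ Sat v G := by
  unfold Sat
  constructor
  · intro h
    exact ⟨fun C hC => h C (List.mem_append_left _ hC), fun C hC => h C (List.mem_append_right _ hC)⟩
  · rintro ⟨h1, h2⟩ C hC
    rcases List.mem_append.1 hC with h | h
    · exact h1 C h
    · exact h2 C h

/-- a literal pattern: sign, row offset, column offset, value -/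
abbrev LPat : Type := Bool × ℕ × ℕ × ℕ

/-- the literal with base point `(t, i)` given by a pattern -/
def litv (N Wd t i : ℕ) (p : LPat) : ℕ × Bool :=
  (((t + p.2.1) * Wd + (i + p.2.2.1)) * N + p.2.2.2, p.1)

/-- the clauses with base point `(t, i)` given by patterns -/
def pat (N Wd t i : ℕ) (P : List (List LPat)) : CNF := P.map (fun C => C.map (litv N Wd t i))

/-- clauses for all base points in a rectangle -/
def fam (N Wd nT nI t0 i0 : ℕ) (P : List (List LPat)) : CNF :=
  (List.range nT).flatMap fun t => (List.range nI).flatMap fun i =>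
    pat N Wd (t0 + t) (i0 + i) P

theorem sat_fam (v : ℕ → Bool) (N Wd nT nI t0 i0 : ℕ) (P : List (List LPat)) :
    Sat v (fam N Wd nT nI t0 i0 P) ↔
      ∀ t, t < nT → ∀ i, i < nI → Sat v (pat N Wd (t0 + t) (i0 + i) P) := by
  unfold Sat fam
  constructor
  · intro h t ht i hi C hC
    exact h C (List.mem_flatMap.2 ⟨t, List.mem_range.2 ht, List.mem_flatMap.2
      ⟨i, List.mem_range.2 hi, hC⟩⟩)
  · intro h C hC
    obtain ⟨t, ht, hC⟩ := List.mem_flatMap.1 hC
    obtain ⟨i, hi, hC⟩ := List.mem_flatMap.1 hC
    exact h t (List.mem_range.1 ht) i (List.mem_range.1 hi) C hC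

section Gen

variable {m : ℕ}

/-- numerical functions, with `tick` as unit -/
abbrev NumT (m : ℕ) (e : (Fin m → ℕ) → ℕ) : Prop := Num CNFLetter.tick m e

theorem gen_lit (N : ℕ) {Wd t i : (Fin m → ℕ) → ℕ} (hW : NumT m Wd) (ht : NumT m t)
    (hi : NumT m i) (p : LPat) :
    LGen m (fun a => encLit (litv N (Wd a) (t a) (i a) p)) := by
  have h1 : LGen m (fun a : Fin m → ℕ => List.replicate
      (((t a + p.2.1) * Wd a + (i a + p.2.2.1)) * N + p.2.2.2) CNFLetter.tick) :=
    Num.add (Num.mul (Num.add (Num.mul (Num.add ht (Num.const _ _)) hW)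
      (Num.add hi (Num.const _ _))) (Num.const _ _)) (Num.const _ _)
  exact LGen.append (LGen.const [if p.1 then .pos else .neg]) h1

theorem gen_lits (N : ℕ) {Wd t i : (Fin m → ℕ) → ℕ} (hW : NumT m Wd) (ht : NumT m t)
    (hi : NumT m i) : ∀ (C : List LPat),
    LGen m (fun a => (C.map (litv N (Wd a) (t a) (i a))).flatMap encLit)
  | [] => LGen.const []
  | p :: C => by
    simp only [List.map_cons, List.flatMap_cons]
    exact LGen.append (gen_lit N hW ht hi p) (gen_lits N hW ht hi C)

theorem gen_pat (N : ℕ) {Wd t i : (Fin m → ℕ) → ℕ} (hW : NumT m Wd) (ht : NumT m t)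
    (hi : NumT m i) : ∀ (P : List (List LPat)),
    LGen m (fun a => encodeCNF (pat N (Wd a) (t a) (i a) P))
  | [] => LGen.const []
  | C :: P => by
    have h := LGen.append (LGen.append (LGen.const [CNFLetter.clause]) (gen_lits N hW ht hi C))
      (gen_pat N hW ht hi P)
    simpa [pat, encodeCNF_cons] using h

theorem gen_fam (N : ℕ) {Wd nT nI t0 i0 : (Fin m → ℕ) → ℕ} (hW : NumT m Wd) (hnT : NumT m nT)
    (hnI : NumT m nI) (ht : NumT m t0) (hi : NumT m i0) (P : List (List LPat)) :
    LGen m (fun a => encodeCNF (fam N (Wd a) (nT a) (nI a) (t0 a) (i0 a) P)) := by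
  have h0 : LGen (m + 2) (fun c : Fin (m + 2) → ℕ => encodeCNF (pat N
      (Wd (c ∘ (fun j => Fin.succ (Fin.succ j))))
      (t0 (c ∘ (fun j => Fin.succ (Fin.succ j))) + c (Fin.succ 0))
      (i0 (c ∘ (fun j => Fin.succ (Fin.succ j))) + c 0) P)) :=
    gen_pat N (Num.rename _ hW) (Num.add (Num.rename _ ht) (Num.var _ _))
      (Num.add (Num.rename _ hi) (Num.var _ _)) P
  have h1 : LGen (m + 1) _ := LGen.loop (Num.rename Fin.succ hnI) h0
  have h2 := LGen.loop hnT h1
  have e : (fun a : Fin m → ℕ => encodeCNF (fam N (Wd a) (nT a) (nI a) (t0 a) (i0 a) P)) =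
      (fun a : Fin m → ℕ => (List.range (nT a)).flatMap (fun t => (List.range (nI a)).flatMap
        (fun i => encodeCNF (pat N (Wd a) (t0 a + t) (i0 a + i) P)))) := by
    funext a
    simp only [fam, encodeCNF_flatMap]
  rw [e]
  exact h2

end Gen

/-! ### Reading letters -/

/-- clauses for the letters of a word -/
def letterPart (N Wd i0 : ℕ) (P : Bool → List (List LPat)) : ℕ → List Bool → CNF
  | _, [] => []
  | j, b :: l => pat N Wd 0 (i0 + j) (P b) ++ letterPart N Wd i0 P (j + 1) l

theorem sat_letterPart (v : ℕ → Bool) (N Wd i0 : ℕ) (P : Bool → List (List LPat)) :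
    ∀ (l : List Bool) (j : ℕ), Sat v (letterPart N Wd i0 P j l) ↔
      ∀ k b, l[k]? = some b → Sat v (pat N Wd 0 (i0 + (j + k)) (P b))
  | [], j => by
    simp [letterPart, Sat]
  | b :: l, j => by
    rw [letterPart, sat_append, sat_letterPart v N Wd i0 P l (j + 1)]
    constructor
    · rintro ⟨h1, h2⟩ k b' hk
      rcases k with _ | k
      · simp only [List.getElem?_cons_zero, Option.some.injEq] at hk
        subst hk
        exact h1
      · rw [List.getElem?_cons_succ] at hk
        have := h2 k b' hk
        rwa [Nat.add_assoc, Nat.add_comm 1 k] at this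
    · intro h
      refine ⟨h 0 b (by simp), fun k b' hk => ?_⟩
      have := h (k + 1) b' (by simpa using hk)
      rwa [Nat.add_assoc, Nat.add_comm 1 k]

/-- bits as letters -/
def bitLetter (b : Bool) : CNFLetter := if b then .pos else .neg

theorem scan_letters (N Wd i0 : ℕ) (P : Bool → List (List LPat))
    (f : List CNFLetter → CNFLetter → List CNFLetter)
    (hf : ∀ p b, f p (bitLetter b) = encodeCNF (pat N Wd 0 (i0 + p.length) (P b))) :
    ∀ (l : List Bool) (p : List CNFLetter),
      scan f p (l.map bitLetter) = encodeCNF (letterPart N Wd i0 P p.length l)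
  | [], p => rfl
  | b :: l, p => by
    rw [List.map_cons, scan, letterPart, encodeCNF_append, hf,
      scan_letters N Wd i0 P f hf l (p ++ [bitLetter b])]
    simp

theorem gen_letters (N : ℕ) {Wd i0 : (Fin 1 → ℕ) → ℕ} (hW : NumT 1 Wd) (hi : NumT 1 i0)
    (P : Bool → List (List LPat)) :
    ∃ F : (Fin 1 → List CNFLetter) → List CNFLetter, PGen 1 F ∧
      ∀ x : List Bool, F ![x.map bitLetter] =
        encodeCNF (letterPart N (Wd ![x.length]) (i0 ![x.length]) P 0 x) := by
  have h0 : ∀ b, LGen 2 (fun c : Fin 2 → ℕ => encodeCNF (pat N (Wd (c ∘ Fin.succ)) 0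
      (i0 (c ∘ Fin.succ) + c 0) (P b))) := fun b =>
    gen_pat N (Num.rename _ hW) (Num.const _ _) (Num.add (Num.rename _ hi) (Num.var _ _)) (P b)
  let G : CNFLetter → (Fin 2 → List CNFLetter) → List CNFLetter := fun c =>
    match c with
    | .pos => fun ρ => encodeCNF (pat N (Wd ((fun i => (ρ i).length) ∘ Fin.succ)) 0
        (i0 ((fun i => (ρ i).length) ∘ Fin.succ) + (ρ 0).length) (P true))
    | .neg => fun ρ => encodeCNF (pat N (Wd ((fun i => (ρ i).length) ∘ Fin.succ)) 0
        (i0 ((fun i => (ρ i).length) ∘ Fin.succ) + (ρ 0).length) (P false))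
    | _ => fun _ => []
  have hG : ∀ c, PGen 2 (G c) := by
    intro c
    cases c with
    | clause => exact PGen.const []
    | pos => exact h0 true
    | neg => exact h0 false
    | tick => exact PGen.const []
  refine ⟨_, PGen.loop 0 G hG, fun x => ?_⟩
  have := scan_letters N (Wd ![x.length]) (i0 ![x.length]) P
    (fun p c => G c (Matrix.vecCons p ![x.map bitLetter])) ?_ x []
  · exact this
  · intro p b
    have e : (fun i => ((Matrix.vecCons p ![x.map bitLetter] : Fin 2 → List CNFLetter) i).length) ∘
        Fin.succ = ![x.length] := by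
      funext i
      fin_cases i
      simp
    cases b
    · show encodeCNF (pat N (Wd _) 0 (i0 _ + _) (P false)) = _
      rw [e]
      rfl
    · show encodeCNF (pat N (Wd _) 0 (i0 _ + _) (P true)) = _
      rw [e]
      rfl

/-! ### Clauses for relations -/

section Rel

variable {A : Type} [Fintype A]

open Classical in
/-- clauses expressing that the values at certain places are in the relation `R` -/
noncomputable def relPat (e : A → ℕ) {r : ℕ} (off : Fin r → ℕ × ℕ) (R : (Fin r → A) → Prop) :
    List (List LPat) :=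
  ((Finset.univ.filter (fun a : Fin r → A => ¬ R a)).toList).map
    (fun a => List.ofFn (fun j => (false, (off j).1, (off j).2, e (a j))))

/-- the clause expressing that some value is taken -/
noncomputable def aloPat (e : A → ℕ) : List (List LPat) :=
  [(Finset.univ : Finset A).toList.map (fun a => (true, 0, 0, e a))]

theorem sat_alo (e : A → ℕ) (v : ℕ → Bool) (N Wd t i : ℕ) :
    Sat v (pat N Wd t i (aloPat e)) ↔ ∃ a, v ((t * Wd + i) * N + e a) = true := by
  simp [Sat, pat, aloPat, litv]

theorem sat_relPat (e : A → ℕ) (v : ℕ → Bool) (N Wd t i : ℕ) {r : ℕ} (off : Fin r → ℕ × ℕ)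
    (R : (Fin r → A) → Prop) (a : Fin r → A)
    (ha : ∀ j, v (((t + (off j).1) * Wd + (i + (off j).2)) * N + e (a j)) = true)
    (h : Sat v (pat N Wd t i (relPat e off R))) : R a := by
  classical
  by_contra hR
  obtain ⟨l, hl, hv⟩ := h ((List.ofFn (fun j => ((false, (off j).1, (off j).2, e (a j)) : LPat))).map
    (litv N Wd t i)) (by
      unfold pat relPat
      refine List.mem_map_of_mem (f := fun C : List LPat => C.map (litv N Wd t i)) ?_
      refine List.mem_map.2 ⟨a, ?_, rfl⟩
      simpa using hR)
  rw [List.map_ofFn, List.mem_ofFn] at hl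
  obtain ⟨j, rfl⟩ := hl
  have h1 := ha j
  simp only [Function.comp, litv] at hv
  rw [h1] at hv
  cases hv

theorem sat_relPat' (e : A → ℕ) (v : ℕ → Bool) (N Wd t i : ℕ) {r : ℕ} (off : Fin r → ℕ × ℕ)
    (R : (Fin r → A) → Prop) (y : Fin r → A)
    (hy : ∀ j a, v (((t + (off j).1) * Wd + (i + (off j).2)) * N + e a) = true → a = y j)
    (h : R y) : Sat v (pat N Wd t i (relPat e off R)) := by
  classical
  intro C hC
  unfold pat relPat at hC
  rw [List.map_map, List.mem_map] at hC
  obtain ⟨a, ha, rfl⟩ := hC
  have hRa : ¬ R a := by simpa using ha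
  have : ∃ j, v (((t + (off j).1) * Wd + (i + (off j).2)) * N + e (a j)) ≠ true := by
    by_contra hcon
    push Not at hcon
    apply hRa
    have : a = y := funext fun j => hy j (a j) (hcon j)
    rw [this]
    exact h
  obtain ⟨j, hj⟩ := this
  refine ⟨litv N Wd t i (false, (off j).1, (off j).2, e (a j)), ?_, ?_⟩
  · simp only [Function.comp]
    rw [List.map_ofFn, List.mem_ofFn]
    exact ⟨j, rfl⟩
  · simp only [litv]
    revert hj
    cases v (((t + (off j).1) * Wd + (i + (off j).2)) * N + e (a j)) <;> simp

end Rel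

end Pool.Agent.Helper53_CookLevin
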