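import Pool.Agent.Helper53_CookLevin.Tableau
import Pool.Agent.Helper53_CookLevin.Formula
import Pool.Agent.Helper32_HCK.Defs

/-!
# The Cook–Levin theorem: satisfiability is NP-hard
-/

namespace Pool.Agent.Helper53_CookLevin

open Turing Function Computability Pool.Agent.Helper32_Poly Pool.Agent.Helper32_HCK

section Tab

variable {K : Type} [DecidableEq K] {Γ : K → Type} {Λ σ : Type} [Fintype Λ]

/-- the formula expressing that there is a tableau: families of clauses without the letters of
the input -/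
noncomputable def restCNF (M : Λ → TM2.Stmt Γ Λ σ) (l₀ : Λ) (v₀ : σ) (k₀ k₁ : K) {B : Type}
    (κ : B → Γ k₀) (f₀ : Γ k₁) [Fintype (cells M k₀)] (e : cells M k₀ → ℕ) (N n T Q : ℕ) : CNF :=
  fam N (T + 3 + n + Q) (T + 1) (T + 3 + n + Q) 0 0 (aloPat e) ++
  (fam N (T + 3 + n + Q) T (T + 1 + n + Q) 0 0 (relPat e ![(0, 0), (0, 1), (0, 2), (1, 1)]
    (fun a => Win M (a 0).1 (a 1).1 (a 2).1 (a 3).1)) ++
  (fam N (T + 3 + n + Q) (T + 1) (T + 2 + n + Q) 0 0 (relPat e ![(0, 0), (0, 1)]
    (fun a => CHor (a 0).1 (a 1).1)) ++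
  (fam N (T + 3 + n + Q) (T + 1) 1 0 0 (relPat e ![(0, 0)] (fun a => CLeft (a 0).1)) ++
  (fam N (T + 3 + n + Q) (T + 1) 1 0 (T + 2 + n + Q) (relPat e ![(0, 0)]
    (fun a => CRight (a 0).1)) ++
  (fam N (T + 3 + n + Q) 1 (T + 1) 0 0 (relPat e ![(0, 0)] (fun a => CBlank M l₀ v₀ (a 0).1)) ++
  (fam N (T + 3 + n + Q) 1 Q 0 (T + 1 + n) (relPat e ![(0, 0)] (fun a => CCert k₀ κ (a 0).1)) ++
  (fam N (T + 3 + n + Q) 1 Q 0 (T + 1 + n) (relPat e ![(0, 0), (0, 1)]
    (fun a => CPair k₀ (a 0).1 (a 1).1)) ++
  (fam N (T + 3 + n + Q) 1 1 0 (T + 1 + n + Q) (relPat e ![(0, 0)] (fun a => CRight (a 0).1)) ++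
  fam N (T + 3 + n + Q) 1 (T + 3 + n + Q) T 0 (relPat e ![(0, 0)]
    (fun a => CAcc k₁ f₀ (a 0).1))))))))))

/-- the formula expressing that there is a tableau -/
noncomputable def tabCNF (M : Λ → TM2.Stmt Γ Λ σ) (l₀ : Λ) (v₀ : σ) (k₀ k₁ : K) {B : Type}
    (ι : Bool → Γ k₀) (κ : B → Γ k₀) (f₀ : Γ k₁) [Fintype (cells M k₀)] (e : cells M k₀ → ℕ)
    (N : ℕ) (x : List Bool) (T Q : ℕ) : CNF :=
  letterPart N (T + 3 + x.length + Q) (T + 1)
    (fun b => relPat e ![(0, 0)] (fun a => CLetter k₀ ι b (a 0).1)) 0 x ++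
  restCNF M l₀ v₀ k₀ k₁ κ f₀ e N x.length T Q

theorem div_aux (N X r : ℕ) (h : r < N) : (X * N + r) / N = X := by
  rw [Nat.mul_comm, Nat.mul_add_div (by omega), Nat.div_eq_of_lt h, Nat.add_zero]

theorem mod_aux (N X r : ℕ) (h : r < N) : (X * N + r) % N = r := by
  rw [Nat.mul_comm, Nat.mul_add_mod, Nat.mod_eq_of_lt h]

theorem tabCNF_sat (M : Λ → TM2.Stmt Γ Λ σ) (l₀ : Λ) (v₀ : σ) (k₀ k₁ : K) {B : Type}
    (ι : Bool → Γ k₀) (κ : B → Γ k₀) (f₀ : Γ k₁) [Fintype (cells M k₀)] (e : cells M k₀ → ℕ)
    (he : Function.Injective e) (N : ℕ) (heN : ∀ a, e a < N) (x : List Bool) (T Q : ℕ) :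
    (∃ v, Sat v (tabCNF M l₀ v₀ k₀ k₁ ι κ f₀ e N x T Q)) ↔
      ∃ y : ℕ → ℕ → Cell Γ Λ σ, (∀ t i, y t i ∈ cells M k₀) ∧
        Tab M l₀ v₀ k₀ k₁ ι κ f₀ x T Q y := by
  obtain ⟨n, hn⟩ : ∃ n, n = x.length := ⟨_, rfl⟩
  obtain ⟨Wd, hWd⟩ : ∃ Wd, Wd = T + 3 + n + Q := ⟨_, rfl⟩
  constructor
  · rintro ⟨v, hv⟩
    unfold tabCNF restCNF at hv
    rw [← hn, ← hWd] at hv
    rw [sat_append, sat_append, sat_append, sat_append, sat_append, sat_append, sat_append,
      sat_append, sat_append, sat_append] at hv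
    obtain ⟨hlet, halo, hwin, hhor, hleft, hright, hblank, hcert, hpair, hend, hacc⟩ := hv
    rw [sat_fam] at halo hwin hhor hleft hright hblank hcert hpair hend hacc
    rw [sat_letterPart] at hlet
    simp only [Nat.zero_add] at halo hwin hhor hleft hright hblank hcert hpair hend hacc hlet
    have ha : ∀ t, t < T + 1 → ∀ i, i < Wd → ∃ a : cells M k₀,
        v ((t * Wd + i) * N + e a) = true := fun t ht i hi => (sat_alo e v N Wd t i).1
          (halo t ht i hi)
    have ha0 : Nonempty (cells M k₀) := by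
      obtain ⟨a, -⟩ := ha 0 (by omega) 0 (by omega)
      exact ⟨a⟩
    have hy : ∀ t i, ∃ a : cells M k₀, t < T + 1 → i < Wd →
        v ((t * Wd + i) * N + e a) = true := by
      intro t i
      by_cases h : t < T + 1 ∧ i < Wd
      · obtain ⟨a, h2⟩ := ha t h.1 i h.2
        exact ⟨a, fun _ _ => h2⟩
      · exact ⟨ha0.some, fun h1 h2 => absurd ⟨h1, h2⟩ h⟩
    choose y hy using hy
    refine ⟨fun t i => (y t i).1, fun t i => (y t i).2, ?_⟩
    refine ⟨?_, ?_, ?_, ?_, ?_, ?_, ?_, ?_, ?_, ?_⟩
    · intro t ht i hi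
      rw [← hn] at hi
      refine sat_relPat e v N Wd t i ![(0, 0), (0, 1), (0, 2), (1, 1)]
        (fun a => Win M (a 0).1 (a 1).1 (a 2).1 (a 3).1)
        ![y t i, y t (i + 1), y t (i + 2), y (t + 1) (i + 1)] ?_ (hwin t ht i hi)
      intro j
      fin_cases j
      · exact hy t i (by omega) (by omega)
      · exact hy t (i + 1) (by omega) (by omega)
      · exact hy t (i + 2) (by omega) (by omega)
      · exact hy (t + 1) (i + 1) (by omega) (by omega)
    · intro t ht i hi
      rw [← hn] at hi
      refine sat_relPat e v N Wd t i ![(0, 0), (0, 1)] (fun a => CHor (a 0).1 (a 1).1)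
        ![y t i, y t (i + 1)] ?_ (hhor t ht i hi)
      intro j
      fin_cases j
      · exact hy t i (by omega) (by omega)
      · exact hy t (i + 1) (by omega) (by omega)
    · intro t ht
      refine sat_relPat e v N Wd t 0 ![(0, 0)] (fun a => CLeft (a 0).1) ![y t 0] ?_
        (hleft t ht 0 (by omega))
      intro j
      fin_cases j
      exact hy t 0 (by omega) (by omega)
    · intro t ht
      rw [← hn]
      refine sat_relPat e v N Wd t (T + 2 + n + Q) ![(0, 0)] (fun a => CRight (a 0).1)
        ![y t (T + 2 + n + Q)] ?_ (hright t ht 0 (by omega))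
      intro j
      fin_cases j
      exact hy t (T + 2 + n + Q) (by omega) (by omega)
    · intro i hi
      refine sat_relPat e v N Wd 0 i ![(0, 0)] (fun a => CBlank M l₀ v₀ (a 0).1) ![y 0 i] ?_
        (hblank 0 (by omega) i hi)
      intro j
      fin_cases j
      exact hy 0 i (by omega) (by omega)
    · intro j b hj
      have hjn : j < n := by
        rw [List.getElem?_eq_some_iff] at hj
        rw [hn]; exact hj.1
      refine sat_relPat e v N Wd 0 (T + 1 + j) ![(0, 0)] (fun a => CLetter k₀ ι b (a 0).1)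
        ![y 0 (T + 1 + j)] ?_ (hlet j b hj)
      intro j'
      fin_cases j'
      exact hy 0 (T + 1 + j) (by omega) (by omega)
    · intro j hj
      rw [← hn]
      refine sat_relPat e v N Wd 0 (T + 1 + n + j) ![(0, 0)] (fun a => CCert k₀ κ (a 0).1)
        ![y 0 (T + 1 + n + j)] ?_ (hcert 0 (by omega) j hj)
      intro j'
      fin_cases j'
      exact hy 0 (T + 1 + n + j) (by omega) (by omega)
    · intro j hj
      rw [← hn]
      refine sat_relPat e v N Wd 0 (T + 1 + n + j) ![(0, 0), (0, 1)]
        (fun a => CPair k₀ (a 0).1 (a 1).1)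
        ![y 0 (T + 1 + n + j), y 0 (T + 1 + n + j + 1)] ?_ (hpair 0 (by omega) j hj)
      intro j'
      fin_cases j'
      · exact hy 0 (T + 1 + n + j) (by omega) (by omega)
      · exact hy 0 (T + 1 + n + j + 1) (by omega) (by omega)
    · rw [← hn]
      refine sat_relPat e v N Wd 0 (T + 1 + n + Q) ![(0, 0)] (fun a => CRight (a 0).1)
        ![y 0 (T + 1 + n + Q)] ?_ (hend 0 (by omega) 0 (by omega))
      intro j'
      fin_cases j'
      exact hy 0 (T + 1 + n + Q) (by omega) (by omega)
    · intro i hi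
      rw [← hn] at hi
      refine sat_relPat e v N Wd T i ![(0, 0)] (fun a => CAcc k₁ f₀ (a 0).1) ![y T i] ?_
        (hacc 0 (by omega) i (by omega))
      intro j'
      fin_cases j'
      exact hy T i (by omega) (by omega)
  · rintro ⟨y, hym, hy⟩
    obtain ⟨z, hz⟩ : ∃ z : ℕ → ℕ → cells M k₀, z = fun t i => ⟨y t i, hym t i⟩ := ⟨_, rfl⟩
    refine ⟨fun m => decide (e (z (m / N / Wd) (m / N % Wd)) = m % N), ?_⟩
    have key : ∀ t i (a : cells M k₀), i < Wd →
        (decide (e (z (((t * Wd + i) * N + e a) / N / Wd) (((t * Wd + i) * N + e a) / N % Wd)) =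
          ((t * Wd + i) * N + e a) % N) = true ↔ z t i = a) := by
      intro t i a hi
      rw [div_aux _ _ _ (heN a), mod_aux _ _ _ (heN a), div_aux _ _ _ hi, mod_aux _ _ _ hi,
        decide_eq_true_eq]
      exact he.eq_iff
    unfold tabCNF restCNF
    rw [← hn, ← hWd]
    rw [sat_append, sat_append, sat_append, sat_append, sat_append, sat_append, sat_append,
      sat_append, sat_append, sat_append]
    refine ⟨?_, ?_, ?_, ?_, ?_, ?_, ?_, ?_, ?_, ?_, ?_⟩
    · rw [sat_letterPart]
      intro j b hj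
      have hjn : j < n := by
        rw [List.getElem?_eq_some_iff] at hj
        rw [hn]; exact hj.1
      rw [Nat.zero_add]
      refine sat_relPat' e _ N Wd 0 _ ![(0, 0)] (fun a => CLetter k₀ ι b (a 0).1)
        ![z 0 (T + 1 + j)] ?_ ?_
      · intro j' a h
        fin_cases j'
        exact ((key 0 (T + 1 + j) a (by omega)).1 h).symm
      · have := hy.letter j b hj
        simpa [hz] using this
    · rw [sat_fam]
      intro t ht i hi
      rw [sat_alo]
      refine ⟨z t i, ?_⟩
      rw [Nat.zero_add, Nat.zero_add]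
      exact (key t i _ (by omega)).2 rfl
    · rw [sat_fam]
      intro t ht i hi
      rw [Nat.zero_add, Nat.zero_add]
      refine sat_relPat' e _ N Wd t i ![(0, 0), (0, 1), (0, 2), (1, 1)]
        (fun a => Win M (a 0).1 (a 1).1 (a 2).1 (a 3).1)
        ![z t i, z t (i + 1), z t (i + 2), z (t + 1) (i + 1)] ?_ ?_
      · intro j' a h
        fin_cases j'
        · exact ((key t i a (by omega)).1 h).symm
        · exact ((key t (i + 1) a (by omega)).1 h).symm
        · exact ((key t (i + 2) a (by omega)).1 h).symm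
        · exact ((key (t + 1) (i + 1) a (by omega)).1 h).symm
      · have := hy.win t ht i (by omega)
        simpa [hz] using this
    · rw [sat_fam]
      intro t ht i hi
      rw [Nat.zero_add, Nat.zero_add]
      refine sat_relPat' e _ N Wd t i ![(0, 0), (0, 1)] (fun a => CHor (a 0).1 (a 1).1)
        ![z t i, z t (i + 1)] ?_ ?_
      · intro j' a h
        fin_cases j'
        · exact ((key t i a (by omega)).1 h).symm
        · exact ((key t (i + 1) a (by omega)).1 h).symm
      · have := hy.hor t ht i (by omega)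
        simpa [hz] using this
    · rw [sat_fam]
      intro t ht i hi
      obtain rfl : i = 0 := by omega
      rw [Nat.zero_add, Nat.zero_add]
      refine sat_relPat' e _ N Wd t 0 ![(0, 0)] (fun a => CLeft (a 0).1) ![z t 0] ?_ ?_
      · intro j' a h
        fin_cases j'
        exact ((key t 0 a (by omega)).1 h).symm
      · have := hy.left t ht
        simpa [hz] using this
    · rw [sat_fam]
      intro t ht i hi
      obtain rfl : i = 0 := by omega
      rw [Nat.zero_add, Nat.add_zero]
      refine sat_relPat' e _ N Wd t _ ![(0, 0)] (fun a => CRight (a 0).1)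
        ![z t (T + 2 + n + Q)] ?_ ?_
      · intro j' a h
        fin_cases j'
        exact ((key t (T + 2 + n + Q) a (by omega)).1 h).symm
      · have := hy.right t ht
        rw [← hn] at this
        simpa [hz] using this
    · rw [sat_fam]
      intro t ht i hi
      obtain rfl : t = 0 := by omega
      rw [Nat.zero_add, Nat.zero_add]
      refine sat_relPat' e _ N Wd 0 i ![(0, 0)] (fun a => CBlank M l₀ v₀ (a 0).1) ![z 0 i] ?_ ?_
      · intro j' a h
        fin_cases j'
        exact ((key 0 i a (by omega)).1 h).symm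
      · have := hy.blank i hi
        simpa [hz] using this
    · rw [sat_fam]
      intro t ht i hi
      obtain rfl : t = 0 := by omega
      rw [Nat.zero_add]
      refine sat_relPat' e _ N Wd 0 _ ![(0, 0)] (fun a => CCert k₀ κ (a 0).1)
        ![z 0 (T + 1 + n + i)] ?_ ?_
      · intro j' a h
        fin_cases j'
        exact ((key 0 (T + 1 + n + i) a (by omega)).1 h).symm
      · have := hy.cert i hi
        rw [← hn] at this
        simpa [hz] using this
    · rw [sat_fam]
      intro t ht i hi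
      obtain rfl : t = 0 := by omega
      rw [Nat.zero_add]
      refine sat_relPat' e _ N Wd 0 _ ![(0, 0), (0, 1)] (fun a => CPair k₀ (a 0).1 (a 1).1)
        ![z 0 (T + 1 + n + i), z 0 (T + 1 + n + i + 1)] ?_ ?_
      · intro j' a h
        fin_cases j'
        · exact ((key 0 (T + 1 + n + i) a (by omega)).1 h).symm
        · exact ((key 0 (T + 1 + n + i + 1) a (by omega)).1 h).symm
      · have := hy.pair i hi
        rw [← hn] at this
        simpa [hz] using this
    · rw [sat_fam]
      intro t ht i hi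
      obtain rfl : t = 0 := by omega
      obtain rfl : i = 0 := by omega
      rw [Nat.zero_add, Nat.add_zero]
      refine sat_relPat' e _ N Wd 0 _ ![(0, 0)] (fun a => CRight (a 0).1)
        ![z 0 (T + 1 + n + Q)] ?_ ?_
      · intro j' a h
        fin_cases j'
        exact ((key 0 (T + 1 + n + Q) a (by omega)).1 h).symm
      · have := hy.certEnd
        rw [← hn] at this
        simpa [hz] using this
    · rw [sat_fam]
      intro t ht i hi
      obtain rfl : t = 0 := by omega
      rw [Nat.zero_add, Nat.add_zero]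
      refine sat_relPat' e _ N Wd T i ![(0, 0)] (fun a => CAcc k₁ f₀ (a 0).1) ![z T i] ?_ ?_
      · intro j' a h
        fin_cases j'
        exact ((key T i a (by omega)).1 h).symm
      · have := hy.acc i (by omega)
        simpa [hz] using this

/-- the formula is generated in polynomial time -/
theorem gen_rest (M : Λ → TM2.Stmt Γ Λ σ) (l₀ : Λ) (v₀ : σ) (k₀ k₁ : K) {B : Type}
    (κ : B → Γ k₀) (f₀ : Γ k₁) [Fintype (cells M k₀)] (e : cells M k₀ → ℕ) (N : ℕ)
    (p q : Polynomial ℕ) :
    LGen 1 (fun a : Fin 1 → ℕ => encodeCNF (restCNF M l₀ v₀ k₀ k₁ κ f₀ e N (a 0)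
      (p.eval (a 0)) (q.eval (a 0)))) := by
  have hn : NumT 1 (fun a => a 0) := Num.var _ 0
  have hT : NumT 1 (fun a => p.eval (a 0)) := Num.poly p hn
  have hQ : NumT 1 (fun a => q.eval (a 0)) := Num.poly q hn
  have hc : ∀ c, NumT 1 (fun _ => c) := Num.const _
  have hW := Num.add (Num.add (Num.add hT (hc 3)) hn) hQ
  have hT1 := Num.add hT (hc 1)
  have h1 := Num.add (Num.add hT1 hn) hQ
  have h2 := Num.add (Num.add (Num.add hT (hc 2)) hn) hQ
  unfold restCNF
  simp only [encodeCNF_append]
  exact LGen.append (gen_fam N hW hT1 hW (hc 0) (hc 0) _)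
    (LGen.append (gen_fam N hW hT h1 (hc 0) (hc 0) _)
    (LGen.append (gen_fam N hW hT1 h2 (hc 0) (hc 0) _)
    (LGen.append (gen_fam N hW hT1 (hc 1) (hc 0) (hc 0) _)
    (LGen.append (gen_fam N hW hT1 (hc 1) (hc 0) h2 _)
    (LGen.append (gen_fam N hW (hc 1) hT1 (hc 0) (hc 0) _)
    (LGen.append (gen_fam N hW (hc 1) hQ (hc 0) (Num.add hT1 hn) _)
    (LGen.append (gen_fam N hW (hc 1) hQ (hc 0) (Num.add hT1 hn) _)
    (LGen.append (gen_fam N hW (hc 1) (hc 1) (hc 0) h1 _)
    (gen_fam N hW (hc 1) hW hT (hc 0) _)))))))))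

theorem gen_tab (M : Λ → TM2.Stmt Γ Λ σ) (l₀ : Λ) (v₀ : σ) (k₀ k₁ : K) {B : Type}
    (ι : Bool → Γ k₀) (κ : B → Γ k₀) (f₀ : Γ k₁) [Fintype (cells M k₀)] (e : cells M k₀ → ℕ)
    (N : ℕ) (p q : Polynomial ℕ) :
    ∃ F : (Fin 1 → List CNFLetter) → List CNFLetter, PGen 1 F ∧
      ∀ x : List Bool, F ![x.map bitLetter] =
        encodeCNF (tabCNF M l₀ v₀ k₀ k₁ ι κ f₀ e N x (p.eval x.length) (q.eval x.length)) := by
  have hn : NumT 1 (fun a => a 0) := Num.var _ 0
  have hT : NumT 1 (fun a => p.eval (a 0)) := Num.poly p hn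
  have hQ : NumT 1 (fun a => q.eval (a 0)) := Num.poly q hn
  have hc : ∀ c, NumT 1 (fun _ => c) := Num.const _
  have hW := Num.add (Num.add (Num.add hT (hc 3)) hn) hQ
  obtain ⟨F, hF, hFx⟩ := gen_letters N hW (Num.add hT (hc 1))
    (fun b => relPat e ![(0, 0)] (fun a => CLetter k₀ ι b (a 0).1))
  refine ⟨_, PGen.append hF (gen_rest M l₀ v₀ k₀ k₁ κ f₀ e N p q), fun x => ?_⟩
  unfold tabCNF
  rw [encodeCNF_append, hFx]
  simp

end Tab

/-! ### NP-hardness of satisfiability -/

/-- The satisfiability problem for CNF formulas. -/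
def satProblem : DecisionProblem where
  Inst := CNF
  Alph := CNFLetter
  alphFintype := inferInstance
  enc := encodeCNF
  enc_injective := encodeCNF_injective
  Yes := fun F => ∃ v : ℕ → Bool, ∀ C ∈ F, ∃ l ∈ C, v l.1 = l.2

/-- **The Cook–Levin theorem**: every language in NP is polynomial-time reducible to SAT. -/
theorem sat_hard (L : Set (List Bool)) (h : InNP (languageProblem L)) :
    PolyReduces (languageProblem L) satProblem := by
  obtain ⟨B, hB, V, q, ⟨comp⟩, hV⟩ := h
  obtain ⟨⟨tm, inA, outA⟩, time, outputs⟩ := comp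
  simp only at outputs
  let _ := tm.kDecidableEq
  let _ := tm.kFin
  let _ := tm.ΛFin
  let _ := tm.σFin
  let _ := tm.Γk₀Fin
  let ι : Bool → tm.Γ tm.k₀ := fun b => inA.symm (Sum.inl b)
  let κ : B → tm.Γ tm.k₀ := fun b => inA.symm (Sum.inr b)
  let f₀ : tm.Γ tm.k₁ := outA.symm false
  let t₀ : tm.Γ tm.k₁ := outA.symm true
  have hft : t₀ ≠ f₀ := fun h => by
    have := outA.symm.injective h
    cases this
  let Bd : ℕ := ∑ l, ssize (tm.m l)
  have hBd : ∀ l, ssize (tm.m l) ≤ Bd := fun l =>
    Finset.single_le_sum (f := fun l => ssize (tm.m l)) (fun _ _ => Nat.zero_le _)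
      (Finset.mem_univ l)
  let p : Polynomial ℕ := time.comp (Polynomial.X + q) * Polynomial.C Bd
  have hrun : ∀ (x : List Bool) (c : List B), c.length ≤ q.eval x.length →
      (mstep tm.m)^[p.eval x.length] (startCfg tm.m tm.main tm.initialState tm.k₀
        (x.map ι ++ c.map κ)) =
        ((none, tm.initialState), update (fun _ => []) tm.k₁
          [if V (x, c) = true then t₀ else f₀]) := by
    intro x c hc
    obtain ⟨⟨m, E⟩, hm⟩ := outputs (x, c)
    simp only at hm
    have E' : (flip bind tm.step)^[m] (some (initList tm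
        (((languageProblem L).encPair (x, c)).map inA.symm))) =
        some (haltList tm ((encodeBool (V (x, c))).map outA.symm)) := E
    obtain ⟨n', hn', hs⟩ := sim_steps tm.m Bd hBd m _ _ E'
    have e1 : emb tm.m (initList tm (((languageProblem L).encPair (x, c)).map inA.symm)) =
        startCfg tm.m tm.main tm.initialState tm.k₀ (x.map ι ++ c.map κ) := by
      rw [initList_eq]
      unfold emb startCfg DecisionProblem.encPair
      simp only [Option.map_some, List.map_append, List.map_map]
      rfl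
    have e2 : emb tm.m (haltList tm ((encodeBool (V (x, c))).map outA.symm)) =
        ((none, tm.initialState), update (fun _ => []) tm.k₁
          [if V (x, c) = true then t₀ else f₀]) := by
      rw [haltList_eq]
      unfold emb encodeBool
      simp only [Option.map_none]
      cases V (x, c) <;> rfl
    rw [e1, e2] at hs
    have hle : n' ≤ p.eval x.length := by
      have h1 : (((languageProblem L).encPair (x, c))).length ≤ x.length + q.eval x.length := by
        unfold DecisionProblem.encPair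
        simp only [List.length_append, List.length_map]
        exact Nat.add_le_add_left hc _
      have h2 := poly_eval_mono time h1
      have h3 : p.eval x.length = time.eval (x.length + q.eval x.length) * Bd := by
        simp only [p, Polynomial.eval_mul, Polynomial.eval_comp, Polynomial.eval_add,
          Polynomial.eval_X, Polynomial.eval_C]
      rw [h3]
      exact hn'.trans (Nat.mul_le_mul_right _ (hm.trans h2))
    obtain ⟨d, hd⟩ := Nat.exists_eq_add_of_le' hle
    rw [hd, Function.iterate_add_apply, hs]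
    exact mstep_halted tm.m _ _ d
  have hfin := cells_finite tm.m tm.k₀
  let _ : Fintype (cells tm.m tm.k₀) := hfin.fintype
  let eq := Fintype.equivFin (cells tm.m tm.k₀)
  let e : cells tm.m tm.k₀ → ℕ := fun a => (eq a).val
  have he : Function.Injective e := fun a b h => eq.injective (Fin.ext h)
  have heN : ∀ a, e a < Fintype.card (cells tm.m tm.k₀) := fun a => (eq a).isLt
  obtain ⟨F, hF, hFx⟩ := gen_tab tm.m tm.main tm.initialState tm.k₀ tm.k₁ ι κ f₀ e
    (Fintype.card (cells tm.m tm.k₀)) p q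
  refine ⟨fun x : List Bool => tabCNF tm.m tm.main tm.initialState tm.k₀ tm.k₁ ι κ f₀ e
    (Fintype.card (cells tm.m tm.k₀)) x (p.eval x.length) (q.eval x.length), ?_, ?_⟩
  · have c1 : TM2ComputableInPolyTime (id : List Bool → List Bool)
        (id : List CNFLetter → List CNFLetter) (fun x => x.map bitLetter) :=
      morphComputable id id _ [] (fun b => [bitLetter b]) (fun x => by
        show x.map bitLetter = [] ++ x.flatMap (fun b => [bitLetter b])
        rw [List.nil_append]
        induction x with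
        | nil => rfl
        | cons b x ih => rw [List.map_cons, List.flatMap_cons, ih]; rfl)
    obtain ⟨c2⟩ := pgen_computable F hF
    obtain ⟨c3⟩ := TM2ComputableInPolyTime.comp c1 c2
    refine ⟨⟨c3.toTM2ComputableAux, c3.time, fun x => ?_⟩⟩
    have h := c3.outputsFun x
    have e3 : (id (((fun w => F ![w]) ∘ fun x : List Bool => x.map bitLetter) x) :
        List CNFLetter) = encodeCNF (tabCNF tm.m tm.main tm.initialState tm.k₀ tm.k₁ ι κ f₀ e
    (Fintype.card (cells tm.m tm.k₀)) x (p.eval x.length) (q.eval x.length)) := hFx x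
    rw [e3] at h
    exact h
  · intro x
    refine (hV x).trans ?_
    refine (tab_iff tm.m tm.main tm.initialState tm.k₀ tm.k₁ ι κ f₀ t₀ hft x
      (p.eval x.length) (q.eval x.length) (fun c => V (x, c)) (hrun x)).trans ?_
    exact (tabCNF_sat tm.m tm.main tm.initialState tm.k₀ tm.k₁ ι κ f₀ e he _ heN x
      (p.eval x.length) (q.eval x.length)).symm

end Pool.Agent.Helper53_CookLevin
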