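import Mathlib

/-!
# Micro steps of a `TM2` machine and their local description

A micro step executes one node of a statement of a `TM2` machine.  The contents of the stacks are
displayed on tracks which grow to the left; a micro step is then described by local rules.
-/

namespace Pool.Agent.Helper53_CookLevin

open Turing Function

variable {K : Type} {Γ : K → Type} {Λ σ : Type}

/-- control states: the rest of the statement which is being executed (`none` = halted), and the
internal memory -/
abbrev Ctl {K : Type} (Γ : K → Type) (Λ σ : Type) : Type := Option (TM2.Stmt Γ Λ σ) × σ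

/-- the stack which is read in a control state -/
def reads : Ctl Γ Λ σ → Option K
  | (some (.peek k _ _), _) => some k
  | (some (.pop k _ _), _) => some k
  | _ => none

/-- next control state, where `h k` is the top of stack `k` -/
def nextCtl (M : Λ → TM2.Stmt Γ Λ σ) (h : ∀ k, Option (Γ k)) : Ctl Γ Λ σ → Ctl Γ Λ σ
  | (some (.push _ _ q), v) => (some q, v)
  | (some (.peek k f q), v) => (some q, f v (h k))
  | (some (.pop k f q), v) => (some q, f v (h k))
  | (some (.load f q), v) => (some q, f v)
  | (some (.branch p q₁ q₂), v) => (some (cond (p v) q₁ q₂), v)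
  | (some (.goto l), v) => (some (M (l v)), v)
  | (some .halt, v) => (none, v)
  | (none, v) => (none, v)

theorem nextCtl_congr (M : Λ → TM2.Stmt Γ Λ σ) (h h' : ∀ k, Option (Γ k)) (c : Ctl Γ Λ σ)
    (H : ∀ k, reads c = some k → h k = h' k) : nextCtl M h c = nextCtl M h' c := by
  obtain ⟨q, v⟩ := c
  rcases q with _ | q
  · rfl
  · cases q with
    | peek k f q => simp only [nextCtl]; rw [H k rfl]
    | pop k f q => simp only [nextCtl]; rw [H k rfl]
    | _ => rfl

/-- stack operations -/
inductive Op (A : Type) : Type
  | keep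
  | push (a : A)
  | pop

/-- effect of a stack operation -/
def Op.app {A : Type} : Op A → List A → List A
  | .keep, S => S
  | .push a, S => a :: S
  | .pop, S => S.tail

theorem Op.app_length {A : Type} (o : Op A) (S : List A) : (o.app S).length ≤ S.length + 1 := by
  cases o <;> simp [Op.app] <;> omega

variable [DecidableEq K]

/-- the operation on stack `k` in a control state -/
def op (c : Ctl Γ Λ σ) (k : K) : Op (Γ k) :=
  match c with
  | (some (.push k' f _), v) => if h : k' = k then .push (h ▸ f v) else .keep
  | (some (.pop k' _ _), _) => if k' = k then .pop else .keep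
  | _ => .keep

/-- micro configurations -/
abbrev MCfg {K : Type} (Γ : K → Type) (Λ σ : Type) : Type := Ctl Γ Λ σ × (∀ k, List (Γ k))

/-- one micro step -/
def mstep (M : Λ → TM2.Stmt Γ Λ σ) (c : MCfg Γ Λ σ) : MCfg Γ Λ σ :=
  (nextCtl M (fun k => (c.2 k).head?) c.1, fun k => (op c.1 k).app (c.2 k))

/-- configurations as micro configurations -/
def emb (M : Λ → TM2.Stmt Γ Λ σ) (c : TM2.Cfg Γ Λ σ) : MCfg Γ Λ σ :=
  ((c.l.map M, c.var), c.stk)

/-- number of micro steps needed for a statement -/
def ssize : TM2.Stmt Γ Λ σ → ℕ
  | .push _ _ q => ssize q + 1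
  | .peek _ _ q => ssize q + 1
  | .pop _ _ q => ssize q + 1
  | .load _ q => ssize q + 1
  | .branch _ q₁ q₂ => ssize q₁ + ssize q₂ + 1
  | .goto _ => 1
  | .halt => 1

theorem sim_stepAux (M : Λ → TM2.Stmt Γ Λ σ) : ∀ (q : TM2.Stmt Γ Λ σ) (v : σ)
    (S : ∀ k, List (Γ k)), ∃ n, n ≤ ssize q ∧
      (mstep M)^[n] ((some q, v), S) = emb M (TM2.stepAux q v S)
  | .push k f q, v, S => by
    obtain ⟨n, hn, h⟩ := sim_stepAux M q v (update S k (f v :: S k))
    refine ⟨n + 1, by simp only [ssize]; omega, ?_⟩
    rw [Function.iterate_succ_apply, TM2.stepAux, ← h]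
    congr 1
    unfold mstep nextCtl
    simp only [Prod.mk.injEq, true_and]
    funext k'
    by_cases e : k = k'
    · subst e; simp [op, Op.app]
    · simp [op, Op.app, e, Ne.symm e]
  | .peek k f q, v, S => by
    obtain ⟨n, hn, h⟩ := sim_stepAux M q (f v (S k).head?) S
    refine ⟨n + 1, by simp only [ssize]; omega, ?_⟩
    rw [Function.iterate_succ_apply, TM2.stepAux, ← h]
    rfl
  | .pop k f q, v, S => by
    obtain ⟨n, hn, h⟩ := sim_stepAux M q (f v (S k).head?) (update S k (S k).tail)
    refine ⟨n + 1, by simp only [ssize]; omega, ?_⟩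
    rw [Function.iterate_succ_apply, TM2.stepAux, ← h]
    congr 1
    unfold mstep nextCtl
    simp only [Prod.mk.injEq, true_and]
    funext k'
    by_cases e : k = k'
    · subst e; simp [op, Op.app]
    · simp [op, Op.app, e, Ne.symm e]
  | .load f q, v, S => by
    obtain ⟨n, hn, h⟩ := sim_stepAux M q (f v) S
    refine ⟨n + 1, by simp only [ssize]; omega, ?_⟩
    rw [Function.iterate_succ_apply, TM2.stepAux, ← h]
    rfl
  | .branch p q₁ q₂, v, S => by
    rcases hp : p v with _ | _
    · obtain ⟨n, hn, h⟩ := sim_stepAux M q₂ v S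
      refine ⟨n + 1, by simp only [ssize]; omega, ?_⟩
      rw [Function.iterate_succ_apply, TM2.stepAux, hp, cond_false, ← h]
      congr 1
      simp only [mstep, nextCtl, hp, cond_false]
      rfl
    · obtain ⟨n, hn, h⟩ := sim_stepAux M q₁ v S
      refine ⟨n + 1, by simp only [ssize]; omega, ?_⟩
      rw [Function.iterate_succ_apply, TM2.stepAux, hp, cond_true, ← h]
      congr 1
      simp only [mstep, nextCtl, hp, cond_true]
      rfl
  | .goto l, v, S => ⟨1, le_rfl, rfl⟩
  | .halt, v, S => ⟨1, le_rfl, rfl⟩

theorem mstep_halted (M : Λ → TM2.Stmt Γ Λ σ) (v : σ) (S : ∀ k, List (Γ k)) (n : ℕ) :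
    (mstep M)^[n] ((none, v), S) = ((none, v), S) := by
  induction n with
  | zero => rfl
  | succ n ih =>
    rw [Function.iterate_succ_apply]
    exact ih

theorem sim_steps (M : Λ → TM2.Stmt Γ Λ σ) (B : ℕ) (hB : ∀ l, ssize (M l) ≤ B) : ∀ (m : ℕ)
    (c c' : TM2.Cfg Γ Λ σ), (flip bind (TM2.step M))^[m] (some c) = some c' →
    ∃ n, n ≤ m * B ∧ (mstep M)^[n] (emb M c) = emb M c'
  | 0, c, c', h => ⟨0, by simp, by
      simp only [Function.iterate_zero, id_eq, Option.some.injEq] at h
      rw [h]; rfl⟩
  | m + 1, ⟨none, v, S⟩, c', h => by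
    exfalso
    rw [Function.iterate_succ_apply] at h
    have : (flip bind (TM2.step M) (some ⟨none, v, S⟩) : Option (TM2.Cfg Γ Λ σ)) = none := rfl
    rw [this] at h
    have h2 : ∀ m : ℕ, (flip bind (TM2.step M))^[m] (none : Option (TM2.Cfg Γ Λ σ)) = none := by
      intro m
      induction m with
      | zero => rfl
      | succ m ih => rw [Function.iterate_succ_apply]; exact ih
    rw [h2] at h
    cases h
  | m + 1, ⟨some l, v, S⟩, c', h => by
    rw [Function.iterate_succ_apply] at h
    have e : (flip bind (TM2.step M) (some ⟨some l, v, S⟩) : Option (TM2.Cfg Γ Λ σ)) =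
      some (TM2.stepAux (M l) v S) := rfl
    rw [e] at h
    obtain ⟨n, hn, h1⟩ := sim_steps M B hB m _ c' h
    obtain ⟨n', hn', h2⟩ := sim_stepAux M (M l) v S
    refine ⟨n + n', ?_, ?_⟩
    · have := hB l
      rw [Nat.add_mul, Nat.one_mul]
      omega
    · rw [Function.iterate_add_apply]
      have : emb M ⟨some l, v, S⟩ = ((some (M l), v), S) := rfl
      rw [this, h2, h1]

/-! ### Tracks -/

/-- symbols on a track: empty space to the left of a stack, space below the bottom of a stack
(to the right), and the letters of the stack -/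
inductive Tr (A : Type) : Type
  | blank
  | bot
  | sym (a : A)

/-- is it blank? -/
def Tr.isBlank {A : Type} : Tr A → Bool
  | .blank => true
  | _ => false

/-- is it a letter? -/
def Tr.isSym {A : Type} : Tr A → Bool
  | .sym _ => true
  | _ => false

/-- the letter -/
def Tr.letter {A : Type} : Tr A → Option A
  | .sym a => some a
  | _ => none

/-- the track of a stack whose bottom is at position `B` -/
def track {A : Type} (B : ℕ) : List A → ℕ → Tr A
  | [], i => if B ≤ i then .bot else .blank
  | a :: S, i => if i + S.length + 1 = B then .sym a else track B S i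

theorem track_isBlank {A : Type} (B : ℕ) : ∀ (S : List A) (i : ℕ),
    (track B S i).isBlank = decide (i + S.length < B)
  | [], i => by
    unfold track
    split_ifs with h
    · simp [Tr.isBlank]; omega
    · simp [Tr.isBlank]; omega
  | a :: S, i => by
    unfold track
    split_ifs with h
    · simp [Tr.isBlank]; omega
    · rw [track_isBlank B S i]
      simp only [List.length_cons, decide_eq_decide]
      omega

theorem track_blank {A : Type} (B : ℕ) (S : List A) (i : ℕ) (h : i + S.length < B) :
    track B S i = .blank := by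
  have h1 := track_isBlank B S i
  rw [decide_eq_true h] at h1
  revert h1
  cases track B S i <;> simp [Tr.isBlank]

theorem track_bot {A : Type} (B : ℕ) : ∀ (S : List A) (i : ℕ), B ≤ i → track B S i = .bot
  | [], i, h => by simp [track, h]
  | a :: S, i, h => by
    unfold track
    rw [if_neg (by omega), track_bot B S i h]

theorem track_head {A : Type} (B : ℕ) (S : List A) (i : ℕ) (h : i + S.length = B) :
    (track B S i).letter = S.head? := by
  cases S with
  | nil =>
    have : B ≤ i := by simp at h; omega
    simp [track, this, Tr.letter]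
  | cons a S =>
    have : i + S.length + 1 = B := by simp at h; omega
    simp [track, this, Tr.letter]

/-- local rule for a track: new symbol at a place, from the old symbols at the place to the left,
the place, and the place to the right -/
def trRule {A : Type} (o : Op A) (a b d : Tr A) : Tr A :=
  match o with
  | .keep => b
  | .push x => if b.isBlank = true ∧ d.isBlank = false then .sym x else b
  | .pop => if a.isBlank = true ∧ b.isSym = true then .blank else b

theorem track_rule {A : Type} (B : ℕ) (o : Op A) (S : List A) (i : ℕ) :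
    track B (o.app S) (i + 1) = trRule o (track B S i) (track B S (i + 1)) (track B S (i + 2)) := by
  cases o with
  | keep => rfl
  | push x =>
    simp only [Op.app, trRule, track, track_isBlank, decide_eq_true_eq, decide_eq_false_iff_not]
    split_ifs <;> first | rfl | omega
  | pop =>
    cases S with
    | nil =>
      simp only [Op.app, trRule, List.tail_nil, track]
      split_ifs <;> simp_all [Tr.isSym]
    | cons x S =>
      simp only [Op.app, trRule, List.tail_cons, track_isBlank, decide_eq_true_eq,
        List.length_cons]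
      by_cases h : i + 1 + S.length + 1 = B
      · have e : track B (x :: S) (i + 1) = .sym x := by simp [track, h]
        rw [e, if_pos ⟨by omega, rfl⟩, track_blank B S (i + 1) (by omega)]
      · have e : track B (x :: S) (i + 1) = track B S (i + 1) := by
          simp only [track]; rw [if_neg h]
        rw [e]
        split_ifs with h2
        · rw [track_blank B S (i + 1) (by omega)]
        · rfl

/-! ### Cells -/

/-- cells: control state and all tracks -/
abbrev Cell {K : Type} (Γ : K → Type) (Λ σ : Type) : Type := Ctl Γ Λ σ × (∀ k, Tr (Γ k))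

/-- the cell number `i` of a micro configuration -/
def cellOf (B : K → ℕ) (c : MCfg Γ Λ σ) (i : ℕ) : Cell Γ Λ σ :=
  (c.1, fun k => track (B k) (c.2 k) i)

/-- relation between three neighbouring cells and the cell below -/
def Win (M : Λ → TM2.Stmt Γ Λ σ) (a b d e : Cell Γ Λ σ) : Prop :=
  (∀ k, e.2 k = trRule (op a.1 k) (a.2 k) (b.2 k) (d.2 k)) ∧
  ∀ h : ∀ k, Option (Γ k), (∀ k, reads a.1 = some k → (a.2 k).isBlank = true ∧
    (b.2 k).isBlank = false ∧ h k = (b.2 k).letter) → e.1 = nextCtl M h a.1

theorem win_cellOf (M : Λ → TM2.Stmt Γ Λ σ) (B : K → ℕ) (c : MCfg Γ Λ σ) (i : ℕ) :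
    Win M (cellOf B c i) (cellOf B c (i + 1)) (cellOf B c (i + 2))
      (cellOf B (mstep M c) (i + 1)) := by
  refine ⟨fun k => track_rule (B k) (op c.1 k) (c.2 k) i, fun h H => ?_⟩
  refine nextCtl_congr M _ h c.1 (fun k hk => ?_)
  obtain ⟨h1, h2, h3⟩ := H k hk
  simp only [cellOf, track_isBlank, decide_eq_true_eq, decide_eq_false_iff_not] at h1 h2
  rw [h3]
  exact (track_head (B k) (c.2 k) (i + 1) (by omega)).symm

/-- Rows satisfying the local constraints develop deterministically. -/
theorem row_step (M : Λ → TM2.Stmt Γ Λ σ) (B : K → ℕ) (W : ℕ) (c : MCfg Γ Λ σ)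
    (y z : ℕ → Cell Γ Λ σ) (hB : ∀ k, (c.2 k).length + 1 < B k) (hBW : ∀ k, B k < W)
    (hW : 2 ≤ W) (hy : ∀ i, i ≤ W → y i = cellOf B c i)
    (hwin : ∀ i, i + 2 ≤ W → Win M (y i) (y (i + 1)) (y (i + 2)) (z (i + 1)))
    (hhor : ∀ i, i < W → (z i).1 = (z (i + 1)).1) (hleft : ∀ k, (z 0).2 k = .blank)
    (hright : ∀ k, (z W).2 k = .bot) :
    ∀ i, i ≤ W → z i = cellOf B (mstep M c) i := by
  have hctl : ∀ i, i ≤ W → (z i).1 = (z 0).1 := by
    intro i
    induction i with
    | zero => intro _; rfl
    | succ i ih => intro h; rw [← hhor i (by omega)]; exact ih (by omega)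
  have hkey : (z 0).1 = nextCtl M (fun k => (c.2 k).head?) c.1 := by
    rcases hr : reads c.1 with _ | k
    · have h1 := (hwin 0 hW).2 (fun k => (c.2 k).head?)
      rw [hctl (0 + 1) (by omega), hy 0 (by omega)] at h1
      refine h1 (fun k hk => ?_)
      exfalso
      have : reads c.1 = some k := hk
      rw [hr] at this
      cases this
    · have hb := hB k
      have hbw := hBW k
      obtain ⟨i, hi⟩ : ∃ i, i + (c.2 k).length + 1 = B k :=
        ⟨B k - (c.2 k).length - 1, by omega⟩
      have h1 := (hwin i (by omega)).2 (fun k => (c.2 k).head?)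
      rw [hctl (i + 1) (by omega), hy i (by omega), hy (i + 1) (by omega)] at h1
      refine h1 (fun k' hk' => ?_)
      have hk2 : reads c.1 = some k' := hk'
      rw [hr] at hk2
      cases hk2
      refine ⟨?_, ?_, ?_⟩
      · simp only [cellOf, track_isBlank, decide_eq_true_eq]; omega
      · simp only [cellOf, track_isBlank, decide_eq_false_iff_not]; omega
      · exact (track_head (B k) (c.2 k) (i + 1) (by omega)).symm
  intro i hi
  refine Prod.ext ?_ ?_
  · rw [hctl i hi, hkey]; rfl
  · funext k
    have hb := hB k
    have hbw := hBW k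
    have hl := Op.app_length (op c.1 k) (c.2 k)
    rcases Nat.eq_zero_or_pos i with h0 | h0
    · subst h0
      rw [hleft k]
      exact (track_blank (B k) _ 0 (by
        show 0 + ((op c.1 k).app (c.2 k)).length < B k
        omega)).symm
    · rcases Nat.lt_or_ge i W with h2 | h2
      · obtain ⟨j, rfl⟩ : ∃ j, i = j + 1 := ⟨i - 1, by omega⟩
        rw [(hwin j (by omega)).1 k, hy j (by omega), hy (j + 1) (by omega),
          hy (j + 2) (by omega)]
        exact (track_rule (B k) (op c.1 k) (c.2 k) j).symm
      · have : i = W := by omega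
        subst this
        rw [hright k]
        exact (track_bot (B k) _ i (by omega)).symm

end Pool.Agent.Helper53_CookLevin
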