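import Pool.Agent.Helper53_CookLevin.Gen

/-!
# Generators whose output depends on the lengths of the variables only
-/

namespace Pool.Agent.Helper53_CookLevin

variable {C : Type}

/-- generators depending on the lengths of the variables only -/
def LGen (m : ℕ) (f : (Fin m → ℕ) → List C) : Prop :=
  PGen m (fun ρ => f (fun i => (ρ i).length))

/-- numerical functions: the word `u^(e a)` can be generated -/
def Num (u : C) (m : ℕ) (e : (Fin m → ℕ) → ℕ) : Prop :=
  LGen m (fun a => List.replicate (e a) u)

theorem scan_length (f : List C → C → List C) (g : ℕ → List C) (h : ∀ q c, f q c = g q.length) :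
    ∀ (p l : List C), scan f p l = (List.range l.length).flatMap (fun k => g (p.length + k))
  | p, [] => by simp [scan]
  | p, c :: l => by
    rw [scan, scan_length f g h (p ++ [c]) l, h, List.length_cons, List.range_succ_eq_map,
      List.flatMap_cons, List.flatMap_map]
    simp only [List.length_append, List.length_singleton, Nat.add_zero, Nat.succ_eq_add_one]
    congr 1
    congr 1
    funext k
    congr 1
    omega

theorem length_vecCons {m : ℕ} (p : List C) (ρ : Fin m → List C) :
    (fun i => (Matrix.vecCons p ρ i).length) =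
      Matrix.vecCons p.length (fun i => (ρ i).length) := by
  funext i
  refine Fin.cases ?_ (fun i => ?_) i <;> simp

theorem LGen.const {m : ℕ} (w : List C) : LGen m (fun _ => w) := PGen.const w

theorem LGen.append {m : ℕ} {f g : (Fin m → ℕ) → List C} (hf : LGen m f) (hg : LGen m g) :
    LGen m (fun a => f a ++ g a) := PGen.append hf hg

theorem LGen.loopVar {m : ℕ} (j : Fin m) {g : (Fin (m + 1) → ℕ) → List C} (h : LGen (m + 1) g) :
    LGen m (fun a => (List.range (a j)).flatMap (fun k => g (Matrix.vecCons k a))) := by
  have h1 := PGen.loop j (fun _ => (fun ρ => g (fun i => (ρ i).length))) (fun _ => h)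
  unfold LGen
  have e : (fun ρ : Fin m → List C => (List.range (ρ j).length).flatMap
      (fun k => g (Matrix.vecCons k (fun i => (ρ i).length)))) =
      (fun ρ => scan (fun p _ => g (fun i => (Matrix.vecCons p ρ i).length)) [] (ρ j)) := by
    funext ρ
    rw [scan_length _ (fun k => g (Matrix.vecCons k (fun i => (ρ i).length)))
      (fun q _ => by rw [length_vecCons])]
    simp
  rw [e]
  exact h1

theorem LGen.letNum {u : C} {m : ℕ} {e : (Fin m → ℕ) → ℕ} {g : (Fin (m + 1) → ℕ) → List C}
    (he : Num u m e) (h : LGen (m + 1) g) : LGen m (fun a => g (Matrix.vecCons (e a) a)) := by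
  have h1 := PGen.letw he h
  unfold LGen
  have e' : (fun ρ : Fin m → List C => g (Matrix.vecCons (e (fun i => (ρ i).length))
      (fun i => (ρ i).length))) = (fun ρ => g (fun i => (Matrix.vecCons
        (List.replicate (e (fun i => (ρ i).length)) u) ρ i).length)) := by
    funext ρ
    rw [length_vecCons, List.length_replicate]
  rw [e']
  exact h1

theorem LGen.rename {m m' : ℕ} {g : (Fin m → ℕ) → List C} (f : Fin m → Fin m')
    (h : LGen m g) : LGen m' (fun a => g (a ∘ f)) := PGen.rename f h

theorem LGen.loop {u : C} {m : ℕ} {e : (Fin m → ℕ) → ℕ} {g : (Fin (m + 1) → ℕ) → List C}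
    (he : Num u m e) (h : LGen (m + 1) g) :
    LGen m (fun a => (List.range (e a)).flatMap (fun k => g (Matrix.vecCons k a))) := by
  have h1 : LGen (m + 2) (fun a => g (a ∘ (Matrix.vecCons 0 (fun i => i.succ.succ)))) :=
    LGen.rename _ h
  have h2 := LGen.letNum he (LGen.loopVar 0 h1)
  have e' : (fun a : Fin m → ℕ => (List.range (e a)).flatMap (fun k => g (Matrix.vecCons k a))) =
      (fun a => (List.range (Matrix.vecCons (e a) a 0)).flatMap (fun k =>
        g ((Matrix.vecCons k (Matrix.vecCons (e a) a)) ∘
          (Matrix.vecCons 0 (fun i => i.succ.succ))))) := by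
    funext a
    congr 1
    funext k
    congr 1
    funext i
    refine Fin.cases ?_ (fun i => ?_) i <;> simp
  rw [e']
  exact h2

theorem Num.const (u : C) {m : ℕ} (c : ℕ) : Num u m (fun _ => c) :=
  LGen.const (List.replicate c u)

theorem Num.add {u : C} {m : ℕ} {e₁ e₂ : (Fin m → ℕ) → ℕ} (h₁ : Num u m e₁) (h₂ : Num u m e₂) :
    Num u m (fun a => e₁ a + e₂ a) := by
  unfold Num
  simp only [List.replicate_add]
  exact LGen.append h₁ h₂

theorem flatMap_replicate (u : C) (b : ℕ) : ∀ n : ℕ,
    (List.range n).flatMap (fun _ => List.replicate b u) = List.replicate (n * b) u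
  | 0 => by simp
  | n + 1 => by
    rw [List.range_succ, List.flatMap_append, flatMap_replicate u b n, Nat.add_mul, Nat.one_mul,
      List.replicate_add]
    simp

theorem Num.rename {u : C} {m m' : ℕ} {e : (Fin m → ℕ) → ℕ} (f : Fin m → Fin m')
    (h : Num u m e) : Num u m' (fun a => e (a ∘ f)) := LGen.rename f h

theorem Num.mul {u : C} {m : ℕ} {e₁ e₂ : (Fin m → ℕ) → ℕ} (h₁ : Num u m e₁) (h₂ : Num u m e₂) :
    Num u m (fun a => e₁ a * e₂ a) := by
  have h3 : Num u (m + 1) (fun a => e₂ (a ∘ Fin.succ)) := Num.rename _ h₂
  have h4 := LGen.loop h₁ h3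
  unfold Num
  have e : (fun a : Fin m → ℕ => List.replicate (e₁ a * e₂ a) u) =
      (fun a => (List.range (e₁ a)).flatMap (fun k =>
        List.replicate (e₂ ((Matrix.vecCons k a) ∘ Fin.succ)) u)) := by
    funext a
    rw [← flatMap_replicate]
    congr 1
  rw [e]
  exact h4

theorem Num.var (u : C) {m : ℕ} (j : Fin m) : Num u m (fun a => a j) := by
  have h := LGen.loopVar j (LGen.const (m := m + 1) [u])
  unfold Num
  have e : (fun a : Fin m → ℕ => List.replicate (a j) u) =
      (fun a => (List.range (a j)).flatMap (fun _ => [u])) := by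
    funext a
    have := flatMap_replicate u 1 (a j)
    rw [Nat.mul_one] at this
    exact this.symm
  rw [e]
  exact h

theorem Num.pow {u : C} {m : ℕ} {e : (Fin m → ℕ) → ℕ} (h : Num u m e) :
    ∀ n : ℕ, Num u m (fun a => e a ^ n)
  | 0 => by simpa using Num.const u 1
  | n + 1 => by
    simp only [pow_succ]
    exact Num.mul (Num.pow h n) h

theorem Num.poly {u : C} {m : ℕ} {e : (Fin m → ℕ) → ℕ} (p : Polynomial ℕ) (h : Num u m e) :
    Num u m (fun a => p.eval (e a)) := by
  induction p using Polynomial.induction_on' with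
  | add p q hp hq =>
    simp only [Polynomial.eval_add]
    exact Num.add hp hq
  | monomial n c =>
    simp only [Polynomial.eval_monomial]
    exact Num.mul (Num.const u c) (Num.pow h n)

end Pool.Agent.Helper53_CookLevin
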