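import Pool.Agent.Helper53_CookLevin.Micro

/-!
# Tableaux of accepting computations
-/

namespace Pool.Agent.Helper53_CookLevin

open Turing Function

variable {K : Type} [DecidableEq K] {Γ : K → Type} {Λ σ : Type}

/-! ### Finitely many cells -/

/-- the letters which can occur on stack `k` -/
def letters [Fintype Λ] (M : Λ → TM2.Stmt Γ Λ σ) (k₀ k : K) : Set (Γ k) :=
  {a | k = k₀ ∨ ∃ c : Ctl Γ Λ σ, c.1 ∈ TM2.stmts M Finset.univ ∧ op c k = .push a}

/-- the cells which can occur -/
def cells [Fintype Λ] (M : Λ → TM2.Stmt Γ Λ σ) (k₀ : K) : Set (Cell Γ Λ σ) :=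
  {x | x.1.1 ∈ TM2.stmts M Finset.univ ∧ ∀ k a, x.2 k = .sym a → a ∈ letters M k₀ k}

theorem letters_finite [Fintype Λ] [Fintype σ] (M : Λ → TM2.Stmt Γ Λ σ) (k₀ k : K)
    [Finite (Γ k₀)] : (letters M k₀ k).Finite := by
  have h1 : {c : Ctl Γ Λ σ | c.1 ∈ TM2.stmts M Finset.univ}.Finite := by
    have : {c : Ctl Γ Λ σ | c.1 ∈ TM2.stmts M Finset.univ} ⊆
        (↑(TM2.stmts M Finset.univ) : Set (Option (TM2.Stmt Γ Λ σ))) ×ˢ (Set.univ : Set σ) := by
      intro c hc
      exact ⟨hc, trivial⟩
    exact ((Finset.finite_toSet _).prod Set.finite_univ).subset this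
  let g : Ctl Γ Λ σ → Option (Γ k) := fun c => match op c k with
    | .push a => some a
    | _ => none
  have h2 : {a : Γ k | ∃ c : Ctl Γ Λ σ, c.1 ∈ TM2.stmts M Finset.univ ∧ op c k = .push a}.Finite := by
    have h3 := (h1.image g).preimage (Option.some_injective (Γ k)).injOn
    refine h3.subset ?_
    rintro a ⟨c, hc, hca⟩
    refine ⟨c, hc, ?_⟩
    simp only [g, hca]
  by_cases hk : k = k₀
  · subst hk
    exact Set.toFinite _
  · refine h2.subset ?_
    rintro a (h | h)
    · exact absurd h hk
    · exact h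

theorem cells_finite [Fintype Λ] [Fintype σ] [Finite K] (M : Λ → TM2.Stmt Γ Λ σ) (k₀ : K)
    [Finite (Γ k₀)] : (cells M k₀).Finite := by
  have h1 : {c : Ctl Γ Λ σ | c.1 ∈ TM2.stmts M Finset.univ}.Finite := by
    have : {c : Ctl Γ Λ σ | c.1 ∈ TM2.stmts M Finset.univ} ⊆
        (↑(TM2.stmts M Finset.univ) : Set (Option (TM2.Stmt Γ Λ σ))) ×ˢ (Set.univ : Set σ) := by
      intro c hc
      exact ⟨hc, trivial⟩
    exact ((Finset.finite_toSet _).prod Set.finite_univ).subset this
  have h2 : (Set.pi Set.univ (fun k => ({.blank, .bot} : Set (Tr (Γ k))) ∪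
      Tr.sym '' (letters M k₀ k))).Finite := by
    refine Set.Finite.pi (fun k => ?_)
    exact (Set.toFinite _).union ((letters_finite M k₀ k).image _)
  refine (h1.prod h2).subset ?_
  rintro ⟨c, f⟩ ⟨hc, hf⟩
  refine ⟨hc, fun k _ => ?_⟩
  show f k ∈ _
  rcases hfk : f k with _ | _ | a
  · left; simp
  · left; simp
  · right; exact ⟨a, hf k a hfk, rfl⟩

theorem nextCtl_mem [Fintype Λ] (M : Λ → TM2.Stmt Γ Λ σ) (h : ∀ k, Option (Γ k))
    (c : Ctl Γ Λ σ) (hc : c.1 ∈ TM2.stmts M Finset.univ) :
    (nextCtl M h c).1 ∈ TM2.stmts M Finset.univ := by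
  obtain ⟨q, v⟩ := c
  have hnone : (none : Option (TM2.Stmt Γ Λ σ)) ∈ TM2.stmts M Finset.univ := by
    simp [TM2.stmts]
  rcases q with _ | q
  · exact hnone
  · cases q with
    | push k f q =>
      exact TM2.stmts_trans (by simp [TM2.stmts₁, TM2.stmts₁_self]) hc
    | peek k f q =>
      exact TM2.stmts_trans (by simp [TM2.stmts₁, TM2.stmts₁_self]) hc
    | pop k f q =>
      exact TM2.stmts_trans (by simp [TM2.stmts₁, TM2.stmts₁_self]) hc
    | load f q =>
      exact TM2.stmts_trans (by simp [TM2.stmts₁, TM2.stmts₁_self]) hc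
    | branch p q₁ q₂ =>
      simp only [nextCtl]
      cases p v
      · exact TM2.stmts_trans (by simp [TM2.stmts₁, TM2.stmts₁_self]) hc
      · exact TM2.stmts_trans (by simp [TM2.stmts₁, TM2.stmts₁_self]) hc
    | goto l =>
      simp only [nextCtl, TM2.stmts, Finset.mem_insertNone, Finset.mem_biUnion, Option.mem_def,
        Option.some.injEq, Finset.mem_univ, true_and]
      rintro _ rfl
      exact ⟨l v, TM2.stmts₁_self⟩
    | halt => exact hnone

/-- invariant of the run: only finitely many letters and statements are used -/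
def Inv [Fintype Λ] (M : Λ → TM2.Stmt Γ Λ σ) (k₀ : K) (c : MCfg Γ Λ σ) : Prop :=
  c.1.1 ∈ TM2.stmts M Finset.univ ∧ ∀ k, ∀ a ∈ c.2 k, a ∈ letters M k₀ k

theorem Inv.mstep [Fintype Λ] {M : Λ → TM2.Stmt Γ Λ σ} {k₀ : K} {c : MCfg Γ Λ σ}
    (h : Inv M k₀ c) : Inv M k₀ (mstep M c) := by
  refine ⟨nextCtl_mem M _ _ h.1, fun k a ha => ?_⟩
  have ha' : a ∈ (op c.1 k).app (c.2 k) := ha
  rcases ho : op c.1 k with _ | b | _
  · rw [ho] at ha'
    exact h.2 k a ha'
  · rw [ho] at ha'
    rcases List.mem_cons.1 ha' with rfl | h2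
    · exact Or.inr ⟨c.1, h.1, ho⟩
    · exact h.2 k a h2
  · rw [ho] at ha'
    exact h.2 k a (List.mem_of_mem_tail ha')

theorem Inv.iterate [Fintype Λ] {M : Λ → TM2.Stmt Γ Λ σ} {k₀ : K} {c : MCfg Γ Λ σ}
    (h : Inv M k₀ c) : ∀ n, Inv M k₀ ((Pool.Agent.Helper53_CookLevin.mstep M)^[n] c)
  | 0 => h
  | n + 1 => by
    rw [Function.iterate_succ_apply']
    exact (Inv.iterate h n).mstep

theorem track_sym {A : Type} (B : ℕ) (a : A) : ∀ (S : List A) (i : ℕ),
    track B S i = .sym a → a ∈ S
  | [], i, h => by
    unfold track at h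
    split_ifs at h
  | b :: S, i, h => by
    unfold track at h
    split_ifs at h with h1
    · cases h; simp
    · exact List.mem_cons_of_mem _ (track_sym B a S i h)

theorem Inv.cell [Fintype Λ] {M : Λ → TM2.Stmt Γ Λ σ} {k₀ : K} {c : MCfg Γ Λ σ}
    (h : Inv M k₀ c) (B : K → ℕ) (i : ℕ) : cellOf B c i ∈ cells M k₀ :=
  ⟨h.1, fun k a ha => h.2 k a (track_sym _ a _ i ha)⟩

theorem track_shift {A : Type} : ∀ (S : List A) (B i d : ℕ),
    track (B + d) S (i + d) = track B S i
  | [], B, i, d => by simp [track]
  | a :: S, B, i, d => by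
    unfold track
    rw [track_shift S B i d]
    have : (i + d + S.length + 1 = B + d) ↔ (i + S.length + 1 = B) := by omega
    simp only [this]

theorem track_get {A : Type} : ∀ (S : List A) (j : ℕ),
    track S.length S j = (S[j]?).elim .bot .sym
  | [], j => by simp [track]
  | a :: S, 0 => by simp [track]
  | a :: S, j + 1 => by
    have h1 : track (a :: S).length (a :: S) (j + 1) = track S.length S j := by
      unfold track
      rw [if_neg (by simp)]
      simp only [List.length_cons]
      rw [track_shift]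
      cases S <;> rfl
    rw [h1, track_get S j]
    simp

theorem track_eq {A : Type} (P : ℕ) (S : List A) (j : ℕ) :
    track (P + S.length) S (P + j) = (S[j]?).elim .bot .sym := by
  rw [← track_get, ← track_shift S S.length j P, Nat.add_comm P, Nat.add_comm P]

theorem iterate_length (M : Λ → TM2.Stmt Γ Λ σ) (c : MCfg Γ Λ σ) (k : K) : ∀ n : ℕ,
    (((mstep M)^[n] c).2 k).length ≤ (c.2 k).length + n
  | 0 => le_rfl
  | n + 1 => by
    rw [Function.iterate_succ_apply']
    have h1 := iterate_length M c k n
    have h2 := Op.app_length (op ((mstep M)^[n] c).1 k) (((mstep M)^[n] c).2 k)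
    show ((op ((mstep M)^[n] c).1 k).app (((mstep M)^[n] c).2 k)).length ≤ _
    omega

/-! ### The tableau -/

section

variable (M : Λ → TM2.Stmt Γ Λ σ) (l₀ : Λ) (v₀ : σ) (k₀ k₁ : K) {B : Type}
  (ι : Bool → Γ k₀) (κ : B → Γ k₀) (f₀ : Γ k₁)

/-- start configuration -/
def startCfg (S : List (Γ k₀)) : MCfg Γ Λ σ :=
  ((some (M l₀), v₀), update (fun _ => []) k₀ S)

/-- initial cell to the left of the stacks -/
def CBlank (a : Cell Γ Λ σ) : Prop := a.1 = (some (M l₀), v₀) ∧ ∀ k, a.2 k = .blank

/-- initial cell for a letter of the input -/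
def CLetter (b : Bool) (a : Cell Γ Λ σ) : Prop :=
  a.2 k₀ = .sym (ι b) ∧ ∀ k, k ≠ k₀ → a.2 k = .bot

/-- initial cell in the certificate area -/
def CCert (a : Cell Γ Λ σ) : Prop :=
  (a.2 k₀ = .bot ∨ ∃ b, a.2 k₀ = .sym (κ b)) ∧ ∀ k, k ≠ k₀ → a.2 k = .bot

/-- pair of neighbouring initial cells in the certificate area -/
def CPair (a b : Cell Γ Λ σ) : Prop := a.2 k₀ = .bot → b.2 k₀ = .bot

/-- cell in the last row -/
def CAcc (a : Cell Γ Λ σ) : Prop := a.1.1 = none ∧ a.2 k₁ ≠ .sym f₀

/-- leftmost cell -/
def CLeft (a : Cell Γ Λ σ) : Prop := ∀ k, a.2 k = .blank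

/-- rightmost cell -/
def CRight (a : Cell Γ Λ σ) : Prop := ∀ k, a.2 k = .bot

/-- neighbouring cells have the same control state -/
def CHor (a b : Cell Γ Λ σ) : Prop := a.1 = b.1

/-- tableau of an accepting computation of length `T` with input `x` and certificate of length
at most `Q` -/
structure Tab (x : List Bool) (T Q : ℕ) (y : ℕ → ℕ → Cell Γ Λ σ) : Prop where
  win : ∀ t, t < T → ∀ i, i < T + 1 + x.length + Q →
    Win M (y t i) (y t (i + 1)) (y t (i + 2)) (y (t + 1) (i + 1))
  hor : ∀ t, t < T + 1 → ∀ i, i < T + 2 + x.length + Q → CHor (y t i) (y t (i + 1))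
  left : ∀ t, t < T + 1 → CLeft (y t 0)
  right : ∀ t, t < T + 1 → CRight (y t (T + 2 + x.length + Q))
  blank : ∀ i, i < T + 1 → CBlank M l₀ v₀ (y 0 i)
  letter : ∀ j b, x[j]? = some b → CLetter k₀ ι b (y 0 (T + 1 + j))
  cert : ∀ j, j < Q → CCert k₀ κ (y 0 (T + 1 + x.length + j))
  pair : ∀ j, j < Q → CPair k₀ (y 0 (T + 1 + x.length + j)) (y 0 (T + 1 + x.length + j + 1))
  certEnd : CRight (y 0 (T + 1 + x.length + Q))
  acc : ∀ i, i < T + 3 + x.length + Q → CAcc k₁ f₀ (y T i)

end

/-- reading a certificate from the initial row -/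
theorem exists_cert {A B : Type} (κ : B → A) : ∀ (Q : ℕ) (g : ℕ → Tr A),
    (∀ j, j < Q → g j = .bot ∨ ∃ b, g j = .sym (κ b)) → (∀ j, j < Q → g j = .bot → g (j + 1) = .bot) →
    g Q = .bot → ∃ c : List B, c.length ≤ Q ∧ ∀ j, j ≤ Q → g j = ((c.map κ)[j]?).elim .bot .sym
  | 0, g, _, _, h3 => ⟨[], le_rfl, fun j hj => by
      obtain rfl : j = 0 := by omega
      simpa using h3⟩
  | Q + 1, g, h1, h2, h3 => by
    rcases h1 0 (by omega) with h | ⟨b, h⟩
    · refine ⟨[], by simp, fun j => ?_⟩
      induction j with
      | zero => intro _; simpa using h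
      | succ j ih =>
        intro hj
        have := h2 j (by omega) (by simpa using ih (by omega))
        simpa using this
    · obtain ⟨c, hc, hcj⟩ := exists_cert κ Q (fun j => g (j + 1))
        (fun j hj => h1 (j + 1) (by omega)) (fun j hj => h2 (j + 1) (by omega)) h3
      refine ⟨b :: c, by simp; omega, fun j hj => ?_⟩
      rcases j with _ | j
      · simpa using h
      · have := hcj j (by omega)
        simpa using this

theorem tab_iff [Fintype Λ] (M : Λ → TM2.Stmt Γ Λ σ) (l₀ : Λ) (v₀ : σ) (k₀ k₁ : K) {B : Type}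
    (ι : Bool → Γ k₀) (κ : B → Γ k₀) (f₀ t₀ : Γ k₁) (hft : t₀ ≠ f₀) (x : List Bool) (T Q : ℕ)
    (V : List B → Bool)
    (hrun : ∀ c : List B, c.length ≤ Q →
      (mstep M)^[T] (startCfg M l₀ v₀ k₀ (x.map ι ++ c.map κ)) =
        ((none, v₀), update (fun _ => []) k₁ [if V c = true then t₀ else f₀])) :
    (∃ c : List B, c.length ≤ Q ∧ V c = true) ↔
      ∃ y : ℕ → ℕ → Cell Γ Λ σ, (∀ t i, y t i ∈ cells M k₀) ∧ Tab M l₀ v₀ k₀ k₁ ι κ f₀ x T Q y := by
  constructor
  · rintro ⟨c, hcQ, hV⟩
    have hR := hrun c hcQ
    obtain ⟨S, hS⟩ : ∃ S, S = x.map ι ++ c.map κ := ⟨_, rfl⟩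
    rw [← hS] at hR
    have hSl : S.length = x.length + c.length := by simp [hS]
    obtain ⟨c₀, hc₀⟩ : ∃ c₀, c₀ = startCfg M l₀ v₀ k₀ S := ⟨_, rfl⟩
    rw [← hc₀] at hR
    have hinv : Inv M k₀ c₀ := by
      rw [hc₀]
      refine ⟨?_, fun k a ha => ?_⟩
      · simp only [startCfg, TM2.stmts, Finset.mem_insertNone, Finset.mem_biUnion,
          Option.mem_def, Option.some.injEq, Finset.mem_univ, true_and]
        rintro _ rfl
        exact ⟨l₀, TM2.stmts₁_self⟩
      · by_cases hk : k = k₀
        · exact Or.inl hk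
        · simp [startCfg, hk] at ha
    have hlen : ∀ k, (c₀.2 k).length ≤ x.length + Q := by
      intro k
      rw [hc₀]
      by_cases hk : k = k₀
      · subst hk; simp [startCfg, hSl]; omega
      · simp [startCfg, hk]
    have hit := iterate_length M c₀
    have htr0 : ∀ k, k ≠ k₀ → c₀.2 k = [] := by
      intro k hk; rw [hc₀]; simp [startCfg, hk]
    have htrk : c₀.2 k₀ = S := by rw [hc₀]; simp [startCfg]
    refine ⟨fun t i => cellOf (fun k => T + 1 + (c₀.2 k).length) ((mstep M)^[t] c₀) i,
      fun t i => (hinv.iterate t).cell _ i, ?_⟩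
    refine ⟨?_, ?_, ?_, ?_, ?_, ?_, ?_, ?_, ?_, ?_⟩
    · intro t _ i _
      rw [Function.iterate_succ_apply']
      exact win_cellOf M _ _ i
    · intro t _ i _
      rfl
    · intro t ht k
      have := hit k t
      exact track_blank (T + 1 + (c₀.2 k).length) _ _ (by omega)
    · intro t ht k
      have := hlen k
      exact track_bot (T + 1 + (c₀.2 k).length) _ _ (by omega)
    · intro i hi
      refine ⟨by simp [cellOf, hc₀, startCfg], fun k => ?_⟩
      exact track_blank (T + 1 + (c₀.2 k).length) _ _ (by
        simp only [Function.iterate_zero, id_eq]; omega)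
    · intro j b hj
      refine ⟨?_, fun k hk => ?_⟩
      · have e := track_eq (T + 1) S j
        rw [hS] at e
        have hjx : j < x.length := by
          rw [List.getElem?_eq_some_iff] at hj
          exact hj.1
        rw [List.getElem?_append_left (by simpa using hjx), List.getElem?_map, hj, ← hS] at e
        simp only [cellOf, Function.iterate_zero, id_eq, htrk]
        exact e
      · have e := track_eq (T + 1) ([] : List (Γ k)) j
        simpa [cellOf, htr0 k hk] using e
    · intro j hj
      refine ⟨?_, fun k hk => ?_⟩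
      · have e := track_eq (T + 1) S (x.length + j)
        rw [hS, List.getElem?_append_right (by simp)] at e
        simp only [List.length_map, Nat.add_sub_cancel_left, List.getElem?_map, ← hS] at e
        rw [← Nat.add_assoc] at e
        simp only [cellOf, Function.iterate_zero, id_eq, htrk]
        rw [e]
        rcases hcj : (c)[j]? with _ | b
        · left; rfl
        · right; exact ⟨b, rfl⟩
      · have e := track_eq (T + 1) ([] : List (Γ k)) (x.length + j)
        rw [← Nat.add_assoc] at e
        simpa [cellOf, htr0 k hk] using e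
    · intro j hj
      have key : ∀ j, (cellOf (fun k => T + 1 + (c₀.2 k).length) ((mstep M)^[0] c₀)
          (T + 1 + x.length + j)).2 k₀ = ((c.map κ)[j]?).elim .bot .sym := by
        intro j
        have e := track_eq (T + 1) S (x.length + j)
        rw [hS, List.getElem?_append_right (by simp)] at e
        simp only [List.length_map, Nat.add_sub_cancel_left, ← hS] at e
        rw [← Nat.add_assoc] at e
        simp only [cellOf, Function.iterate_zero, id_eq, htrk]
        exact e
      intro h
      rw [key j] at h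
      have hn : (c.map κ)[j]? = none := by
        rcases hcj : (c.map κ)[j]? with _ | b
        · rfl
        · rw [hcj] at h; cases h
      have e2 := key (j + 1)
      rw [← Nat.add_assoc] at e2
      rw [e2]
      have : (c.map κ)[j + 1]? = none := by
        rw [List.getElem?_eq_none_iff] at hn ⊢
        omega
      rw [this]
      rfl
    · intro k
      exact track_bot (T + 1 + (c₀.2 k).length) _ _ (by
        by_cases hk : k = k₀
        · subst hk; rw [htrk, hSl]; omega
        · rw [htr0 k hk]; simp; omega)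
    · intro i hi
      have e : ∀ i, cellOf (fun k => T + 1 + (c₀.2 k).length) ((mstep M)^[T] c₀) i =
          ((none, v₀), fun k => track (T + 1 + (c₀.2 k).length)
            ((update (fun _ => []) k₁ [t₀] : ∀ k, List (Γ k)) k) i) := by
        intro i
        rw [hR, hV]
        rfl
      refine ⟨by simp only [e], ?_⟩
      simp only [e]
      intro h
      have := track_sym _ _ _ _ h
      rw [update_self, List.mem_singleton] at this
      exact hft this.symm
  · rintro ⟨y, -, hy⟩
    -- the certificate
    obtain ⟨c, hcQ, hc⟩ := exists_cert κ Q (fun j => (y 0 (T + 1 + x.length + j)).2 k₀)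
      (fun j hj => (hy.cert j hj).1) (fun j hj => hy.pair j hj) (hy.certEnd k₀)
    obtain ⟨S, hS⟩ : ∃ S, S = x.map ι ++ c.map κ := ⟨_, rfl⟩
    have hSl : S.length = x.length + c.length := by simp [hS]
    obtain ⟨c₀, hc₀⟩ : ∃ c₀, c₀ = startCfg M l₀ v₀ k₀ S := ⟨_, rfl⟩
    have hlen : ∀ k, (c₀.2 k).length ≤ x.length + Q := by
      intro k
      rw [hc₀]
      by_cases hk : k = k₀
      · subst hk; simp [startCfg, hSl]; omega
      · simp [startCfg, hk]
    have hit := iterate_length M c₀
    have htr0 : ∀ k, k ≠ k₀ → c₀.2 k = [] := by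
      intro k hk; rw [hc₀]; simp [startCfg, hk]
    have htrk : c₀.2 k₀ = S := by rw [hc₀]; simp [startCfg]
    have hctl : ∀ i, i ≤ T + 2 + x.length + Q → (y 0 i).1 = (some (M l₀), v₀) := by
      intro i
      induction i with
      | zero => intro _; exact (hy.blank 0 (by omega)).1
      | succ i ih =>
        intro hi
        rw [← ih (by omega)]
        exact (hy.hor 0 (by omega) i (by omega)).symm
    have hrow0 : ∀ i, i ≤ T + 2 + x.length + Q →
        y 0 i = cellOf (fun k => T + 1 + (c₀.2 k).length) c₀ i := by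
      intro i hi
      refine Prod.ext ?_ (funext fun k => ?_)
      · rw [hctl i hi, hc₀]; rfl
      · simp only [cellOf]
        rcases Nat.lt_or_ge i (T + 1) with h1 | h1
        · rw [(hy.blank i h1).2 k, track_blank _ _ _ (by omega)]
        · obtain ⟨j, rfl⟩ : ∃ j, i = T + 1 + j := ⟨i - (T + 1), by omega⟩
          rw [track_eq]
          rcases Nat.lt_or_ge j x.length with h2 | h2
          · have hxj : x[j]? = some x[j] := List.getElem?_eq_getElem h2
            have hl := hy.letter j _ hxj
            by_cases hk : k = k₀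
            · subst hk
              rw [hl.1, htrk, hS, List.getElem?_append_left (by simpa using h2),
                List.getElem?_map, hxj]
              rfl
            · rw [hl.2 k hk, htr0 k hk]; rfl
          · obtain ⟨j', rfl⟩ : ∃ j', j = x.length + j' := ⟨j - x.length, by omega⟩
            rcases Nat.lt_or_ge Q j' with h3 | h3
            · have h4 : T + 1 + (x.length + j') = T + 2 + x.length + Q := by omega
              have h5 := hy.right 0 (by omega) k
              rw [h4, h5]
              have h6 : (c₀.2 k)[x.length + j']? = none := by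
                rw [List.getElem?_eq_none_iff]
                have := hlen k
                omega
              rw [h6]
              rfl
            · rw [← Nat.add_assoc]
              by_cases hk : k = k₀
              · subst hk
                have := hc j' h3
                rw [this, htrk, hS, List.getElem?_append_right (by simp)]
                simp
              · have hb : (y 0 (T + 1 + x.length + j')).2 k = .bot := by
                  rcases Nat.lt_or_ge j' Q with h4 | h4
                  · exact (hy.cert j' h4).2 k hk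
                  · have : j' = Q := by omega
                    subst this
                    exact hy.certEnd k
                rw [hb, htr0 k hk]
                rfl
    have hrows : ∀ t, t ≤ T → ∀ i, i ≤ T + 2 + x.length + Q →
        y t i = cellOf (fun k => T + 1 + (c₀.2 k).length) ((mstep M)^[t] c₀) i := by
      intro t
      induction t with
      | zero => intro _; exact hrow0
      | succ t ih =>
        intro ht
        rw [Function.iterate_succ_apply']
        refine row_step M _ (T + 2 + x.length + Q) _ (y t) (y (t + 1)) ?_ ?_ (by omega)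
          (ih (by omega)) ?_ ?_ ?_ ?_
        · intro k
          have := hit k t
          omega
        · intro k
          have := hlen k
          omega
        · intro i hi
          exact hy.win t (by omega) i (by omega)
        · intro i hi
          exact hy.hor (t + 1) (by omega) i hi
        · exact hy.left (t + 1) (by omega)
        · exact hy.right (t + 1) (by omega)
    refine ⟨c, hcQ, ?_⟩
    by_contra hV
    have hR := hrun c hcQ
    rw [← hS, ← hc₀, if_neg hV] at hR
    have h1 := hrows T le_rfl (T + (c₀.2 k₁).length) (by have := hlen k₁; omega)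
    have h2 := (hy.acc (T + (c₀.2 k₁).length) (by have := hlen k₁; omega)).2
    apply h2
    rw [h1, hR]
    simp only [cellOf, update_self, track, List.length_nil, Nat.add_zero]
    rw [if_pos (by omega)]

end Pool.Agent.Helper53_CookLevin
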